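import Pool.Agent.Q176.FM.LSD
import Pool.Agent.H60R2.RZ2_C1

/-!
# BLK: the large sieve for real characters in windows
-/

set_option autoImplicit false

namespace Pool.Agent.Q176.FM

open Finset Pool.Agent.Q122.FM Pool.Agent.Helper112 Pool.Agent.H306R2.RZ

/-- reduced residues -/
def Rs (s : ℕ) : Finset ℕ := (range s).filter (fun r => r.Coprime s)

theorem ee_add_int (x : ℝ) (n : ℤ) : ee (x + n) = ee x := by
  rw [ls_ee_add, ls_ee_int, mul_one]

/-- sums of roots of unity -/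
theorem geom_ee {s : ℕ} {t : ℝ} {k : ℤ} (ht : (s : ℝ) * t = k) (hne : ee t ≠ 1) :
    ∑ i ∈ range s, ee ((i : ℝ) * t) = 0 := by
  have h1 : ∀ i ∈ range s, ee ((i : ℝ) * t) = ee t ^ i := fun i _ => ls_ee_nat_mul i t
  rw [Finset.sum_congr rfl h1]
  have h2 : ee t ^ s = 1 := by
    rw [← ls_ee_nat_mul, ht, ls_ee_int]
  have h3 := mul_neg_geom_sum (ee t) s
  rw [h2, sub_self] at h3
  rcases mul_eq_zero.1 h3 with h | h
  · exact absurd (sub_eq_zero.1 h).symm hne
  · exact h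

/-- the sum over a window -/
noncomputable def Dw (m s r : ℕ) : ℂ := ∑ i ∈ range m, ee (((i : ℝ) + 1) * r / s)

theorem not_int {s : ℕ} {a : ℤ} (h : ¬ (s : ℤ) ∣ a) (hs : 0 < s) : ee ((a : ℝ) / s) ≠ 1 := by
  intro h1
  obtain ⟨n, hn⟩ := ls_ee_eq_one h1
  apply h
  have hs' : (s : ℝ) ≠ 0 := by positivity
  rw [div_eq_iff hs'] at hn
  refine ⟨n, ?_⟩
  have h2 : (a : ℝ) = ((s * n : ℤ) : ℝ) := by
    rw [hn]
    push_cast
    ring
  exact_mod_cast h2

theorem Dw_add {m s r : ℕ} (hr : 0 < r) (hrs : r < s) : Dw (m + s) s r = Dw m s r := by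
  unfold Dw
  rw [Finset.sum_range_add]
  have h1 : ∑ i ∈ range s, ee (((((m + i : ℕ)) : ℝ) + 1) * r / s) =
      ee (((m : ℝ) + 1) * r / s) * ∑ i ∈ range s, ee ((i : ℝ) * (((r : ℤ) : ℝ) / s)) := by
    rw [Finset.mul_sum]
    refine Finset.sum_congr rfl fun i _ => ?_
    rw [← ls_ee_add]
    congr 1
    push_cast
    ring
  have hs : 0 < s := by omega
  have hs' : (s : ℝ) ≠ 0 := by positivity
  have h2 : ∑ i ∈ range s, ee ((i : ℝ) * (((r : ℤ) : ℝ) / s)) = 0 := by
    refine geom_ee (k := (r : ℤ)) ?_ (not_int ?_ hs)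
    · field_simp
    · intro h
      have h3 := Int.le_of_dvd (by omega) h
      omega
  rw [h1, h2, mul_zero, add_zero]

theorem Dw_mod {m s r : ℕ} (hr : 0 < r) (hrs : r < s) : Dw m s r = Dw (m % s) s r := by
  have h : ∀ q, Dw (m % s + s * q) s r = Dw (m % s) s r := by
    intro q
    induction q with
    | zero => rw [mul_zero, add_zero]
    | succ q ih => rw [mul_add, mul_one, ← add_assoc, Dw_add hr hrs, ih]
  rw [← h (m / s), Nat.mod_add_div]

/-- orthogonality -/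
theorem Dw_sum {m s : ℕ} (hs : 0 < s) (hm : m ≤ s) :
    ∑ r ∈ range s, ‖Dw m s r‖ ^ 2 = s * m := by
  have h1 : ((∑ r ∈ range s, ‖Dw m s r‖ ^ 2 : ℝ) : ℂ) = ((s * m : ℝ) : ℂ) := by
    rw [Complex.ofReal_sum]
    have h2 : ∀ r ∈ range s, ((‖Dw m s r‖ ^ 2 : ℝ) : ℂ) =
        ∑ i ∈ range m, ∑ j ∈ range m, ee ((r : ℝ) * ((((i : ℤ) - (j : ℤ) : ℤ) : ℝ) / s)) := by
      intro r _
      rw [← Complex.normSq_eq_norm_sq, ← Complex.mul_conj]
      unfold Dw
      rw [map_sum, Finset.sum_mul_sum]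
      refine Finset.sum_congr rfl fun i _ => Finset.sum_congr rfl fun j _ => ?_
      rw [ls_conj_ee, ← ls_ee_add]
      congr 1
      push_cast
      ring
    rw [Finset.sum_congr rfl h2, Finset.sum_comm]
    have h3 : ∀ i ∈ range m, ∑ r ∈ range s, ∑ j ∈ range m,
        ee ((r : ℝ) * ((((i : ℤ) - (j : ℤ) : ℤ) : ℝ) / s)) = (s : ℂ) := by
      intro i hi
      rw [Finset.sum_comm, Finset.sum_eq_single i]
      · simp [ls_ee_zero]
      · intro j hj hij
        have hs' : (s : ℝ) ≠ 0 := by positivity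
        rw [Finset.mem_range] at hi hj
        refine geom_ee (k := ((i : ℤ) - (j : ℤ))) ?_ (not_int ?_ hs)
        · field_simp
        · intro h
          have h4 : |(i : ℤ) - j| < s := by
            rw [abs_lt]
            omega
          have h5 := Int.eq_zero_of_abs_lt_dvd h h4
          omega
      · intro h
        exact absurd hi h
    rw [Finset.sum_congr rfl h3, Finset.sum_const, Finset.card_range]
    simp [mul_comm]
  exact_mod_cast h1

theorem Dw_bound {m s : ℕ} (hs : 2 ≤ s) : ∑ r ∈ Rs s, ‖Dw m s r‖ ^ 2 ≤ s * m := by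
  have h1 : ∑ r ∈ Rs s, ‖Dw m s r‖ ^ 2 = ∑ r ∈ Rs s, ‖Dw (m % s) s r‖ ^ 2 := by
    refine Finset.sum_congr rfl fun r hr => ?_
    unfold Rs at hr
    rw [Finset.mem_filter, Finset.mem_range] at hr
    have hr0 : 0 < r := by
      rcases Nat.eq_zero_or_pos r with h | h
      · rw [h, Nat.coprime_zero_left] at hr
        omega
      · exact h
    rw [Dw_mod hr0 hr.1]
  rw [h1]
  have h2 : ∑ r ∈ Rs s, ‖Dw (m % s) s r‖ ^ 2 ≤ ∑ r ∈ range s, ‖Dw (m % s) s r‖ ^ 2 :=
    Finset.sum_le_sum_of_subset_of_nonneg (Finset.filter_subset _ _) fun r _ _ => by positivity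
  refine h2.trans ?_
  rw [Dw_sum (by omega) (Nat.mod_lt m (by omega)).le]
  have h3 : ((m % s : ℕ) : ℝ) ≤ m := by exact_mod_cast Nat.mod_le m s
  exact mul_le_mul_of_nonneg_left h3 (by positivity)

/-- the inverse of eight -/
theorem exists_inv8 {s : ℕ} (hs : Odd s) (hs3 : 3 ≤ s) : ∃ e : ℕ, 8 * e % s = 1 := by
  have h1 : Nat.Coprime 8 s := by
    have : Nat.Coprime 2 s := (Nat.coprime_two_left).2 hs
    exact this.pow_left 3
  obtain ⟨e, he⟩ := Nat.exists_mul_mod_eq_one_of_coprime h1 (by omega)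
  exact ⟨e, he.2⟩

theorem sum_eight {s e : ℕ} (hs : 3 ≤ s) (he : 8 * e % s = 1) (G : ℕ → ℂ) :
    ∑ r ∈ Rs s, G (8 * r % s) = ∑ r ∈ Rs s, G r := by
  have hs0 : 0 < s := by omega
  have he' : 8 * e ≡ 1 [MOD s] := by
    unfold Nat.ModEq
    rw [he, Nat.mod_eq_of_lt (by omega)]
  have c8 : Nat.Coprime 8 s := by
    have h1 := he'.gcd_eq
    rw [Nat.gcd_one_left] at h1
    exact Nat.Coprime.coprime_mul_right (show Nat.Coprime (8 * e) s from h1)
  have ce : Nat.Coprime e s := by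
    have h1 := he'.gcd_eq
    rw [Nat.gcd_one_left] at h1
    exact Nat.Coprime.coprime_mul_left (show Nat.Coprime (8 * e) s from h1)
  refine Finset.sum_nbij' (fun r => 8 * r % s) (fun r => e * r % s) ?_ ?_ ?_ ?_ ?_
  · intro r hr
    unfold Rs at hr ⊢
    rw [Finset.mem_filter, Finset.mem_range] at hr ⊢
    refine ⟨Nat.mod_lt _ hs0, ?_⟩
    have h1 := (Nat.mod_modEq (8 * r) s).gcd_eq
    unfold Nat.Coprime
    rw [h1]
    exact c8.mul_left hr.2
  · intro r hr
    unfold Rs at hr ⊢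
    rw [Finset.mem_filter, Finset.mem_range] at hr ⊢
    refine ⟨Nat.mod_lt _ hs0, ?_⟩
    have h1 := (Nat.mod_modEq (e * r) s).gcd_eq
    unfold Nat.Coprime
    rw [h1]
    exact ce.mul_left hr.2
  · intro r hr
    unfold Rs at hr
    rw [Finset.mem_filter, Finset.mem_range] at hr
    have h1 : e * (8 * r % s) ≡ r [MOD s] := by
      calc e * (8 * r % s) ≡ e * (8 * r) [MOD s] := (Nat.mod_modEq _ _).mul_left e
        _ = 8 * e * r := by ring
        _ ≡ 1 * r [MOD s] := he'.mul_right r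
        _ = r := one_mul r
    change e * (8 * r % s) % s = r
    rw [h1, Nat.mod_eq_of_lt hr.1]
  · intro r hr
    unfold Rs at hr
    rw [Finset.mem_filter, Finset.mem_range] at hr
    have h1 : 8 * (e * r % s) ≡ r [MOD s] := by
      calc 8 * (e * r % s) ≡ 8 * (e * r) [MOD s] := (Nat.mod_modEq _ _).mul_left 8
        _ = 8 * e * r := by ring
        _ ≡ 1 * r [MOD s] := he'.mul_right r
        _ = r := one_mul r
    change 8 * (e * r % s) % s = r
    rw [h1, Nat.mod_eq_of_lt hr.1]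
  · intro r _
    rfl

theorem ee_congr {s : ℕ} (hs : 0 < s) {a b : ℤ} (h : a ≡ b [ZMOD s]) :
    ee ((a : ℝ) / s) = ee ((b : ℝ) / s) := by
  obtain ⟨k, hk⟩ := h.symm.dvd
  have hs' : (s : ℝ) ≠ 0 := by positivity
  have h1 : (a : ℝ) / s = (b : ℝ) / s + (k : ℤ) := by
    have h2 : (a : ℝ) - b = s * k := by exact_mod_cast hk
    field_simp
    linarith
  rw [h1, ee_add_int]

theorem js_congr {s : ℕ} {a b : ℤ} (h : a ≡ b [ZMOD s]) : js a s = js b s := by
  unfold js
  rw [jacobiSym.mod_left' h]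

theorem cas_eq (x : ℝ) : cas (2 * Real.pi * x) = ((1 - Complex.I) * ee x).re := by
  unfold cas ee
  have h1 : (2 * (Real.pi : ℂ) * (x : ℂ) * Complex.I) = ((2 * Real.pi * x : ℝ) : ℂ) * Complex.I := by
    push_cast
    ring
  rw [h1, Complex.exp_mul_I, ← Complex.ofReal_cos, ← Complex.ofReal_sin]
  generalize Real.cos (2 * Real.pi * x) = a
  generalize Real.sin (2 * Real.pi * x) = b
  simp [Complex.mul_re, Complex.sub_re, Complex.sub_im]

/-- the expansion of the character -/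
theorem js_eq {s : ℕ} (hs : Odd s) (hsq : Squarefree s) (hs3 : 3 ≤ s) (k : ℤ) :
    js k s = (∑ r ∈ Rs s, ((1 - Complex.I) / Real.sqrt s) * (js r s : ℂ) *
      ee (((k * r : ℤ) : ℝ) / s)).re := by
  have h1 := Pool.Agent.H60R2.RZC1.Gk_sqf s hs hsq k
  have hs0 : 0 < Real.sqrt s := Real.sqrt_pos.2 (by positivity)
  have h2 : js k s = Gk k s / Real.sqrt s := by
    rw [h1, mul_div_assoc, div_self hs0.ne', mul_one]
  rw [h2]
  unfold Gk
  have h3 : ∑ r ∈ range s, js (r : ℤ) s * cas (2 * Real.pi * (k : ℝ) * (r : ℝ) / (s : ℝ)) =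
      ∑ r ∈ Rs s, js (r : ℤ) s * cas (2 * Real.pi * (k : ℝ) * (r : ℝ) / (s : ℝ)) := by
    unfold Rs
    rw [Finset.sum_filter]
    refine Finset.sum_congr rfl fun r _ => ?_
    split_ifs with h
    · rfl
    · have h4 : jacobiSym (r : ℤ) s = 0 := by
        have : NeZero s := ⟨by omega⟩
        rw [jacobiSym.eq_zero_iff_not_coprime]
        intro h5
        apply h
        rw [Int.gcd_natCast_natCast] at h5
        exact h5
      unfold js
      rw [h4]
      simp
  rw [h3, Finset.sum_div, Complex.re_sum]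
  refine Finset.sum_congr rfl fun r _ => ?_
  have h4 : 2 * Real.pi * (k : ℝ) * (r : ℝ) / (s : ℝ) =
      2 * Real.pi * (((k * r : ℤ) : ℝ) / s) := by
    push_cast
    ring
  rw [h4, cas_eq]
  have h5 : ((1 - Complex.I) / (Real.sqrt s : ℂ)) * (js r s : ℂ) * ee (((k * r : ℤ) : ℝ) / s) =
      ((js r s / Real.sqrt s : ℝ) : ℂ) * ((1 - Complex.I) * ee (((k * r : ℤ) : ℝ) / s)) := by
    push_cast
    ring
  rw [h5, Complex.re_ofReal_mul]
  ring

theorem sum_Ioc_int {β : Type*} [AddCommMonoid β] (f : ℤ → β) (u : ℤ) (m : ℕ) :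
    ∑ j ∈ Ioc u (u + m), f j = ∑ i ∈ range m, f (u + ((i : ℤ) + 1)) := by
  refine (Finset.sum_nbij (fun i : ℕ => u + ((i : ℤ) + 1)) ?_ ?_ ?_ ?_).symm
  · intro n hn
    rw [Finset.mem_range] at hn
    rw [Finset.mem_Ioc]
    omega
  · intro a _ b _ h
    simp only [add_right_inj, add_left_inj, Nat.cast_inj] at h
    exact h
  · intro j hj
    rw [Finset.mem_coe, Finset.mem_Ioc] at hj
    refine ⟨(j - u - 1).toNat, ?_, ?_⟩
    · rw [Finset.mem_coe, Finset.mem_range]
      omega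
    · simp only
      omega
  · intro n _
    rfl

theorem t_BLK (lsd : S_LSD) : S_BLK := by
  intro F U m u0 c S K hS
  have hinv : ∀ s : ℕ, ∃ e : ℕ, s ∈ S → 8 * e % s = 1 := by
    intro s
    by_cases h : s ∈ S
    · obtain ⟨h1, -, h2, -⟩ := hS s h
      obtain ⟨e, he⟩ := exists_inv8 h1 h2
      exact ⟨e, fun _ => he⟩
    · exact ⟨0, fun h' => absurd h' h⟩
  choose e he using hinv
  -- the coefficients
  set b : ℕ → ℕ → ℂ := fun s r => (K s : ℂ) * (((1 - Complex.I) / Real.sqrt s) *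
    (js ((e s * r : ℕ) : ℤ) s : ℂ) * ee (((c * ((e s * r : ℕ) : ℤ) : ℤ) : ℝ) / s)) with hb
  set co : ℕ → ℕ → ℂ := fun s r => if s ∈ S then b s r * Dw m s r else 0 with hco
  have hSF : S ⊆ Icc 1 F := by
    intro s hs
    obtain ⟨-, -, h1, h2⟩ := hS s hs
    rw [Finset.mem_Icc]
    omega
  -- the sum is a real part
  have key : ∀ u : ℤ, ∑ j ∈ Ioc u (u + m), ∑ s ∈ S, K s * js (8 * j + c) s =
      (∑ s ∈ Icc 1 F, ∑ r ∈ (range s).filter (fun r => r.Coprime s),
        co s r * ee ((u : ℝ) * r / s)).re := by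
    intro u
    have e1 : ∑ s ∈ Icc 1 F, ∑ r ∈ (range s).filter (fun r => r.Coprime s),
        co s r * ee ((u : ℝ) * r / s) = ∑ s ∈ S, ∑ r ∈ Rs s, b s r * Dw m s r *
          ee ((u : ℝ) * r / s) := by
      rw [← Finset.sum_subset hSF]
      · refine Finset.sum_congr rfl fun s hs => Finset.sum_congr rfl fun r _ => ?_
        simp only [hco, if_pos hs]
      · intro s _ hs
        refine Finset.sum_eq_zero fun r _ => ?_
        simp only [hco, if_neg hs, zero_mul]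
    rw [e1, sum_Ioc_int, Finset.sum_comm, Complex.re_sum]
    refine Finset.sum_congr rfl fun s hs => ?_
    obtain ⟨h1, h2, h3, -⟩ := hS s hs
    have hs0 : 0 < s := by omega
    have hes := he s hs
    have h8 : (8 * (e s : ℤ)) ≡ 1 [ZMOD s] := by
      have h9 : 8 * e s ≡ 1 [MOD s] := by
        unfold Nat.ModEq
        rw [hes, Nat.mod_eq_of_lt (by omega)]
      have h10 := (Int.natCast_modEq_iff).2 h9
      push_cast at h10
      exact h10
    have e2 : ∀ i ∈ range m, K s * js (8 * (u + ((i : ℤ) + 1)) + c) s =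
        (∑ r ∈ Rs s, b s r * ee (((i : ℝ) + 1) * r / s) * ee ((u : ℝ) * r / s)).re := by
      intro i _
      rw [js_eq h1 h2 h3, ← Complex.re_ofReal_mul, Finset.mul_sum,
        ← sum_eight h3 hes (fun r => b s r * ee (((i : ℝ) + 1) * r / s) * ee ((u : ℝ) * r / s))]
      congr 1
      refine Finset.sum_congr rfl fun r _ => ?_
      have hr8 : (((8 * r % s : ℕ)) : ℤ) ≡ 8 * (r : ℤ) [ZMOD s] := by
        have h10 := (Int.natCast_modEq_iff).2 (Nat.mod_modEq (8 * r) s)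
        push_cast at h10 ⊢
        exact h10
      have hr1 : ((e s * (8 * r % s) : ℕ) : ℤ) ≡ (r : ℤ) [ZMOD s] := by
        push_cast
        calc (e s : ℤ) * (8 * (r : ℤ) % s) ≡ (e s : ℤ) * (8 * (r : ℤ)) [ZMOD s] :=
              (Int.mod_modEq _ _).mul_left _
          _ = 8 * (e s : ℤ) * r := by ring
          _ ≡ 1 * r [ZMOD s] := h8.mul_right _
          _ = r := one_mul _
      have f1 : js ((e s * (8 * r % s) : ℕ) : ℤ) s = js r s := js_congr hr1
      have f2 : ee (((c * ((e s * (8 * r % s) : ℕ) : ℤ) : ℤ) : ℝ) / s) =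
          ee (((c * (r : ℤ) : ℤ) : ℝ) / s) := ee_congr hs0 (hr1.mul_left c)
      have f3 : ee (((i : ℝ) + 1) * ((8 * r % s : ℕ) : ℝ) / s) =
          ee (((((i : ℤ) + 1) * (8 * (r : ℤ)) : ℤ) : ℝ) / s) := by
        have aux : ∀ t : ℕ, ((i : ℝ) + 1) * (t : ℝ) / s =
            (((((i : ℤ) + 1) * (t : ℤ) : ℤ) : ℝ) / s) := by
          intro t
          push_cast
          ring
        rw [← ee_congr hs0 (hr8.mul_left ((i : ℤ) + 1)), aux]
      have f4 : ee ((u : ℝ) * ((8 * r % s : ℕ) : ℝ) / s) =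
          ee (((u * (8 * (r : ℤ)) : ℤ) : ℝ) / s) := by
        have aux : ∀ t : ℕ, (u : ℝ) * (t : ℝ) / s = (((u * (t : ℤ) : ℤ) : ℝ) / s) := by
          intro t
          push_cast
          ring
        rw [← ee_congr hs0 (hr8.mul_left u), aux]
      simp only [hb]
      rw [f1, f2, f3, f4]
      have f5 : ee ((((8 * (u + ((i : ℤ) + 1)) + c) * (r : ℤ) : ℤ) : ℝ) / s) =
          ee (((c * (r : ℤ) : ℤ) : ℝ) / s) *
          ee (((((i : ℤ) + 1) * (8 * (r : ℤ)) : ℤ) : ℝ) / s) *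
          ee (((u * (8 * (r : ℤ)) : ℤ) : ℝ) / s) := by
        rw [← ls_ee_add, ← ls_ee_add]
        congr 1
        push_cast
        ring
      rw [f5]
      ring
    rw [Finset.sum_congr rfl e2, ← Complex.re_sum, Finset.sum_comm]
    congr 1
    refine Finset.sum_congr rfl fun r _ => ?_
    unfold Dw
    rw [Finset.mul_sum, Finset.sum_mul]
  -- the large sieve
  have h1 : ∑ u ∈ Ico u0 (u0 + U), (∑ j ∈ Ioc u (u + m), ∑ s ∈ S, K s * js (8 * j + c) s) ^ 2 ≤
      ∑ u ∈ Ico u0 (u0 + U), ‖∑ s ∈ Icc 1 F, ∑ r ∈ (range s).filter (fun r => r.Coprime s),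
        co s r * ee ((u : ℝ) * r / s)‖ ^ 2 := by
    refine Finset.sum_le_sum fun u _ => ?_
    rw [key u, ← sq_abs]
    exact pow_le_pow_left₀ (abs_nonneg _) (Complex.abs_re_le_norm _) 2
  refine h1.trans ((lsd F U u0 co).trans ?_)
  have h2 : ∑ s ∈ Icc 1 F, ∑ r ∈ (range s).filter (fun r => r.Coprime s), ‖co s r‖ ^ 2 ≤
      2 * m * ∑ s ∈ S, K s ^ 2 := by
    rw [← Finset.sum_subset hSF, Finset.mul_sum]
    · refine Finset.sum_le_sum fun s hs => ?_
      obtain ⟨-, -, h3, -⟩ := hS s hs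
      have hs0 : (0 : ℝ) < s := by
        have : 0 < s := by omega
        exact_mod_cast this
      have h4 : ∀ r ∈ Rs s, ‖co s r‖ ^ 2 ≤ K s ^ 2 * (2 / s) * ‖Dw m s r‖ ^ 2 := by
        intro r _
        simp only [hco, if_pos hs]
        rw [norm_mul, mul_pow]
        refine mul_le_mul_of_nonneg_right ?_ (by positivity)
        simp only [hb]
        rw [norm_mul, norm_mul, norm_mul, ls_norm_ee, mul_one, mul_pow, mul_pow, norm_div, div_pow]
        have g1 : ‖(K s : ℂ)‖ ^ 2 = K s ^ 2 := by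
          rw [Complex.norm_real, Real.norm_eq_abs, sq_abs]
        have g2 : ‖(1 - Complex.I : ℂ)‖ ^ 2 = 2 := by
          rw [← Complex.normSq_eq_norm_sq]
          simp [Complex.normSq_apply]
          norm_num
        have g3 : ‖(Real.sqrt s : ℂ)‖ ^ 2 = s := by
          rw [Complex.norm_real, Real.norm_eq_abs, sq_abs, Real.sq_sqrt hs0.le]
        have g4 : ‖(js ((e s * r : ℕ) : ℤ) s : ℂ)‖ ^ 2 ≤ 1 := by
          rw [Complex.norm_real, Real.norm_eq_abs, sq_abs]
          unfold js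
          have g5 := jacobiSym.trichotomy ((e s * r : ℕ) : ℤ) s
          rcases g5 with g | g | g <;> rw [g] <;> norm_num
        rw [g1, g2, g3]
        have g6 : 0 ≤ K s ^ 2 * (2 / (s : ℝ)) := by positivity
        calc K s ^ 2 * (2 / (s : ℝ) * ‖(js ((e s * r : ℕ) : ℤ) s : ℂ)‖ ^ 2) =
            K s ^ 2 * (2 / (s : ℝ)) * ‖(js ((e s * r : ℕ) : ℤ) s : ℂ)‖ ^ 2 := by ring
          _ ≤ K s ^ 2 * (2 / (s : ℝ)) * 1 := mul_le_mul_of_nonneg_left g4 g6
          _ = _ := mul_one _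
      calc ∑ r ∈ (range s).filter (fun r => r.Coprime s), ‖co s r‖ ^ 2 ≤
          ∑ r ∈ Rs s, K s ^ 2 * (2 / s) * ‖Dw m s r‖ ^ 2 := Finset.sum_le_sum h4
        _ = K s ^ 2 * (2 / s) * ∑ r ∈ Rs s, ‖Dw m s r‖ ^ 2 := by rw [Finset.mul_sum]
        _ ≤ K s ^ 2 * (2 / s) * (s * m) :=
            mul_le_mul_of_nonneg_left (Dw_bound (by omega)) (by positivity)
        _ = 2 * m * K s ^ 2 := by
            field_simp
    · intro s _ hs
      refine Finset.sum_eq_zero fun r _ => ?_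
      simp only [hco, if_neg hs, norm_zero]
      norm_num
  calc 6 * (U + (F : ℝ) ^ 2) * ∑ s ∈ Icc 1 F, ∑ r ∈ (range s).filter (fun r => r.Coprime s),
        ‖co s r‖ ^ 2 ≤ 6 * (U + (F : ℝ) ^ 2) * (2 * m * ∑ s ∈ S, K s ^ 2) :=
        mul_le_mul_of_nonneg_left h2 (by positivity)
    _ = _ := by ring

end Pool.Agent.Q176.FM
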