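import Pool.Agent.Q122.FM.Stm

/-!
# LSD: the large sieve inequality in its dual form
-/

set_option autoImplicit false

namespace Pool.Agent.Q176.FM

open Finset Pool.Agent.Q122.FM Pool.Agent.Helper112

theorem ee_norm (x : ℝ) : ‖ee x‖ = 1 := by
  unfold ee
  rw [Complex.norm_exp]
  simp

/-- reindexing an interval of integers -/
theorem sum_Ico_int {β : Type*} [AddCommMonoid β] (f : ℤ → β) (u0 : ℤ) (N : ℕ) :
    ∑ u ∈ Ico u0 (u0 + N), f u = ∑ n ∈ Icc 1 N, f (u0 - 1 + n) := by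
  refine (Finset.sum_nbij (fun n : ℕ => u0 - 1 + (n : ℤ)) ?_ ?_ ?_ ?_).symm
  · intro n hn
    rw [Finset.mem_Icc] at hn
    rw [Finset.mem_Ico]
    omega
  · intro a _ b _ h
    simp only [add_right_inj, Nat.cast_inj] at h
    exact h
  · intro u hu
    rw [Finset.mem_coe, Finset.mem_Ico] at hu
    refine ⟨(u - u0 + 1).toNat, ?_, ?_⟩
    · rw [Finset.mem_coe, Finset.mem_Icc]
      omega
    · simp only
      omega
  · intro n _
    rfl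

theorem t_LSD : S_LSD := by
  intro F N u0 c
  set P : Finset (Σ _ : ℕ, ℕ) :=
    (Icc 1 F).sigma (fun s => (range s).filter (fun r => r.Coprime s)) with hP
  set T : ℤ → ℂ := fun u => ∑ s ∈ Icc 1 F, ∑ r ∈ (range s).filter (fun r => r.Coprime s),
      c s r * ee ((u : ℝ) * r / s) with hT
  have hTP : ∀ u, T u = ∑ p ∈ P, c p.1 p.2 * ee ((u : ℝ) * p.2 / p.1) := by
    intro u
    rw [hP, Finset.sum_sigma]
  have hc : ∑ s ∈ Icc 1 F, ∑ r ∈ (range s).filter (fun r => r.Coprime s), ‖c s r‖ ^ 2 =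
      ∑ p ∈ P, ‖c p.1 p.2‖ ^ 2 := by
    rw [hP, Finset.sum_sigma]
  set α : ℕ → ℂ := fun n => (starRingEnd ℂ) (T (u0 - 1 + n)) with hα
  set S : ℝ := ∑ n ∈ Icc 1 N, ‖T (u0 - 1 + n)‖ ^ 2 with hS
  have hS0 : 0 ≤ S := Finset.sum_nonneg fun n _ => by positivity
  have hαS : ∑ n ∈ Icc 1 N, ‖α n‖ ^ 2 = S := by
    refine Finset.sum_congr rfl fun n _ => ?_
    simp only [hα, RCLike.norm_conj]
  have h1 := additive_large_sieve N F α
  rw [hαS] at h1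
  have h1' : ∑ f ∈ Icc 1 F, ∑ a ∈ (range f).filter (fun a => a.Coprime f),
      ‖∑ n ∈ Icc 1 N, α n * ee (n * a / f)‖ ^ 2 =
      ∑ p ∈ P, ‖∑ n ∈ Icc 1 N, α n * ee (n * p.2 / p.1)‖ ^ 2 := by
    rw [hP, Finset.sum_sigma]
  rw [h1'] at h1
  -- the duality
  have h2 : (S : ℂ) = ∑ p ∈ P, c p.1 p.2 * ee (((u0 : ℝ) - 1) * p.2 / p.1) *
      ∑ n ∈ Icc 1 N, α n * ee (n * p.2 / p.1) := by
    have e1 : (S : ℂ) = ∑ n ∈ Icc 1 N, α n * T (u0 - 1 + n) := by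
      rw [hS, Complex.ofReal_sum]
      refine Finset.sum_congr rfl fun n _ => ?_
      simp only [hα]
      rw [mul_comm, Complex.mul_conj, Complex.normSq_eq_norm_sq]
    rw [e1]
    simp only [Finset.mul_sum]
    rw [Finset.sum_comm]
    refine Finset.sum_congr rfl fun n _ => ?_
    rw [hTP, Finset.mul_sum]
    refine Finset.sum_congr rfl fun p _ => ?_
    have e2 : ((((u0 - 1 + (n : ℤ) : ℤ)) : ℝ) * p.2 / p.1) =
        ((u0 : ℝ) - 1) * p.2 / p.1 + n * p.2 / p.1 := by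
      push_cast
      ring
    rw [e2, ls_ee_add]
    ring
  have h3 : S ≤ ∑ p ∈ P, ‖c p.1 p.2‖ * ‖∑ n ∈ Icc 1 N, α n * ee (n * p.2 / p.1)‖ := by
    have e1 : S = ‖(S : ℂ)‖ := by
      rw [Complex.norm_real, Real.norm_of_nonneg hS0]
    rw [e1, h2]
    refine (norm_sum_le _ _).trans (Finset.sum_le_sum fun p _ => ?_)
    rw [norm_mul, norm_mul, ee_norm, mul_one]
  have h4 : S ^ 2 ≤ (∑ p ∈ P, ‖c p.1 p.2‖ ^ 2) * (6 * (N + (F : ℝ) ^ 2) * S) := by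
    calc S ^ 2 ≤ (∑ p ∈ P, ‖c p.1 p.2‖ * ‖∑ n ∈ Icc 1 N, α n * ee (n * p.2 / p.1)‖) ^ 2 :=
          pow_le_pow_left₀ hS0 h3 2
      _ ≤ (∑ p ∈ P, ‖c p.1 p.2‖ ^ 2) *
          ∑ p ∈ P, ‖∑ n ∈ Icc 1 N, α n * ee (n * p.2 / p.1)‖ ^ 2 :=
          Finset.sum_mul_sq_le_sq_mul_sq _ _ _
      _ ≤ _ := mul_le_mul_of_nonneg_left h1 (Finset.sum_nonneg fun p _ => by positivity)
  have h5 : ∑ u ∈ Ico u0 (u0 + N), ‖T u‖ ^ 2 = S := sum_Ico_int (fun u => ‖T u‖ ^ 2) u0 N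
  change ∑ u ∈ Ico u0 (u0 + N), ‖T u‖ ^ 2 ≤ _
  rw [h5, hc]
  rcases hS0.eq_or_lt with h0 | h0
  · rw [← h0]
    have : 0 ≤ ∑ p ∈ P, ‖c p.1 p.2‖ ^ 2 := Finset.sum_nonneg fun p _ => by positivity
    positivity
  · have h6 : S * S ≤ (6 * (N + (F : ℝ) ^ 2) * ∑ p ∈ P, ‖c p.1 p.2‖ ^ 2) * S := by
      calc S * S = S ^ 2 := by ring
        _ ≤ _ := h4
        _ = _ := by ring
    exact le_of_mul_le_mul_right h6 h0

end Pool.Agent.Q176.FM
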