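import Pool.Agent.Q176.FM.WAt

/-!
# WA1: the squarefree numbers with the weight `φ(d)/d` in windows
-/

set_option autoImplicit false

namespace Pool.Agent.Q176.FM

open Finset Pool.Agent.Q122.FM ArithmeticFunction

noncomputable section

theorem tau_one : tau 1 = 1 := by
  unfold tau
  rw [if_pos odd_one, tA_one]

theorem tau_zero : tau 0 = 0 := by simp [tau]

theorem tau_mul {m n : ℕ} (h : Nat.Coprime m n) : tau (m * n) = tau m * tau n := by
  unfold tau
  rw [tA_mult.2 h]
  by_cases h1 : Odd m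
  · by_cases h2 : Odd n
    · rw [if_pos h1, if_pos h2, if_pos (h1.mul h2)]
    · rw [if_neg h2, if_neg (fun h' => h2 (Nat.odd_mul.1 h').2), mul_zero]
  · rw [if_neg h1, if_neg (fun h' => h1 (Nat.odd_mul.1 h').1), zero_mul]

theorem tau_odd {e : ℕ} (h : tau e ≠ 0) : Odd e := by
  by_contra h1
  apply h
  unfold tau
  rw [if_neg h1]

theorem tau_two (k : ℕ) : tau (2 ^ (k + 1)) = 0 := by
  unfold tau
  rw [if_neg]
  intro h
  rw [Nat.odd_iff, pow_succ] at h
  omega

theorem tau_pow {p : ℕ} (hp : p.Prime) (h2 : p ≠ 2) :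
    tau (p ^ 1) = -(1 / p) ∧ tau (p ^ 2) = -(1 - 1 / p) ∧ ∀ k, tau (p ^ (k + 3)) = 0 := by
  have ho : Odd p := hp.odd_of_ne_two h2
  refine ⟨?_, ?_, fun k => ?_⟩
  · unfold tau
    rw [if_pos (ho.pow), pow_one, tA_prime hp]
  · unfold tau
    rw [if_pos (ho.pow), tA_sq hp]
  · unfold tau
    rw [if_pos (ho.pow), tA_cube hp]

theorem tau_hasSum {d : ℕ} (hd : Odd d) :
    HasSum (fun e => if e ∣ d then tau e else 0) (gA d) := by
  have hd0 : d ≠ 0 := by
    rintro rfl
    simp at hd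
  rw [← tA_sum]
  have h1 : ∑ e ∈ d.divisors, tA e = ∑ e ∈ d.divisors, if e ∣ d then tau e else 0 := by
    refine Finset.sum_congr rfl fun e he => ?_
    have h2 := Nat.dvd_of_mem_divisors he
    rw [if_pos h2]
    unfold tau
    rw [if_pos (hd.of_dvd_nat h2)]
  rw [h1]
  refine hasSum_sum_of_ne_finset_zero fun e he => ?_
  rw [if_neg]
  intro h2
  exact he (Nat.mem_divisors.2 ⟨h2, hd0⟩)

/-- the Euler factor -/
def ph (p : ℕ) : ℝ := 1 - 2 / (p : ℝ) ^ 2 + 1 / (p : ℝ) ^ 3

theorem tau_div_summable : Summable fun e : ℕ => ‖tau e / e‖ := by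
  obtain ⟨C, -, h⟩ := tau_sum
  refine Summable.of_nonneg_of_le (fun e => norm_nonneg _) (fun e => ?_) (h 1 one_pos).1
  rw [norm_div, Real.norm_eq_abs, Real.norm_eq_abs, Nat.abs_cast, div_eq_mul_inv]
  refine mul_le_mul_of_nonneg_left (le_min ?_ ?_) (abs_nonneg _)
  · exact Nat.cast_inv_le_one e
  · rw [one_div]

/-- the Euler factors of a multiplicative function which agrees with `tau e / e` at the powers of `p` -/
theorem factor {F : ℕ → ℝ} {p : ℕ} (hp : p.Prime) (h : ∀ k, F (p ^ k) = tau (p ^ k) / (p ^ k : ℕ)) :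
    ∑' k, F (p ^ k) = if p = 2 then 1 else ph p := by
  have hp0 : (p : ℝ) ≠ 0 := by exact_mod_cast hp.ne_zero
  split_ifs with h2
  · rw [tsum_eq_single 0]
    · rw [h, pow_zero, tau_one]
      simp
    · intro k hk
      obtain ⟨k, rfl⟩ := Nat.exists_eq_succ_of_ne_zero hk
      rw [h, h2, Nat.succ_eq_add_one, tau_two, zero_div]
  · obtain ⟨h3, h4, h5⟩ := tau_pow hp h2
    rw [tsum_eq_sum (s := range 3)]
    · rw [Finset.sum_range_succ, Finset.sum_range_succ, Finset.sum_range_one, h, h, h, h3, h4,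
        pow_zero, tau_one]
      unfold ph
      push_cast
      field_simp
      ring
    · intro k hk
      rw [Finset.mem_range, not_lt] at hk
      obtain ⟨k, rfl⟩ := Nat.exists_eq_add_of_le' hk
      rw [h, h5, zero_div]

theorem Po_hasProd : HasProd (fun p : Nat.Primes => if (p : ℕ) = 2 then 1 else ph p)
    (∑' e : ℕ, tau e / e) := by
  have h := EulerProduct.eulerProduct_hasProd (f := fun e : ℕ => tau e / e)
    (by simp [tau_one]) (fun {m n} hmn => by
      rw [tau_mul hmn]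
      push_cast
      rw [div_mul_div_comm]) tau_div_summable (by simp [tau_zero])
  refine h.congr_fun fun p => ?_
  exact (factor (F := fun e : ℕ => tau e / e) p.2 (fun k => by rfl)).symm

theorem Po_eq : ∑' e : ℕ, tau e / e = Po := by
  rw [← Po_hasProd.tprod_eq]
  rfl

theorem sum_gA (s : Finset ℕ) (c : ℕ) :
    ∑ d ∈ s.filter (fun d => d % 8 = c ∧ Squarefree d), (d.totient : ℝ) / d =
      ∑ d ∈ s.filter (fun d => d % 8 = c), gA d := by
  rw [← Finset.filter_filter, Finset.sum_filter]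
  exact Finset.sum_congr rfl fun d _ => (gA_apply d).symm

theorem t_WA1 : S_WA1 := by
  obtain ⟨C, hC, h⟩ := tau_sum
  refine ⟨3 * C, by positivity, fun c hc hco Y hh h1 h2 => ?_⟩
  have hh0 : (0 : ℝ) < hh := by exact_mod_cast h1
  obtain ⟨s1, s2⟩ := h hh hh0
  obtain ⟨-, k⟩ := lemG tau (fun e => e) (fun e he => tau_odd he) (fun d => gA d) hc hco h1 h2
    (fun d hd => tau_hasSum hd) s1
  rw [Po_eq] at k
  have e1 : ∑ y ∈ range Y, |∑ d ∈ (Ioc y (y + hh)).filter (fun d => d % 8 = c ∧ Squarefree d),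
      (d.totient : ℝ) / d - Po / 8 * hh| =
      ∑ y ∈ range Y, |∑ d ∈ (Ioc y (y + hh)).filter (fun d => d % 8 = c), gA d -
        (hh : ℝ) / 8 * Po| := by
    refine Finset.sum_congr rfl fun y _ => ?_
    rw [sum_gA]
    congr 2
    ring
  rw [e1]
  refine k.trans ?_
  have := mul_le_mul_of_nonneg_left s2 (by positivity : 0 ≤ 3 * (Y : ℝ))
  linarith

end

end Pool.Agent.Q176.FM
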