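import Pool.Agent.Q176.FM.WA1

/-!
# WA2: the squarefree numbers with the weight `φ(d)/d ∑_{q | d} log q/(q-1)` in windows
-/

set_option autoImplicit false

namespace Pool.Agent.Q176.FM

open Finset Pool.Agent.Q122.FM ArithmeticFunction

noncomputable section

/-- the coefficients -/
def sg (i : ℕ × ℕ) : ℝ :=
  if i.1.Prime ∧ i.1 ≠ 2 ∧ ¬ i.1 ∣ i.2 then Real.log i.1 / i.1 * tau i.2 else 0

/-- the divisor sum -/
def Sq (q d : ℕ) : ℝ := ∑ e ∈ d.divisors.filter (fun e => ¬ q ∣ e), tau e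

/-- the function -/
def GG (j d : ℕ) : ℝ := ∑ q ∈ d.primeFactors, if q ^ j ∣ d then Real.log q / q * Sq q d else 0

theorem sg_odd {j : ℕ} {i : ℕ × ℕ} (h : sg i ≠ 0) : Odd (i.1 ^ j * i.2) := by
  unfold sg at h
  split_ifs at h with h1
  · have h2 : tau i.2 ≠ 0 := fun h3 => h (by rw [h3, mul_zero])
    exact (h1.1.odd_of_ne_two h1.2.1).pow.mul (tau_odd h2)
  · exact absurd rfl h

theorem GG_hasSum {j d : ℕ} (hj : j ≠ 0) (hd : Odd d) :
    HasSum (fun i : ℕ × ℕ => if i.1 ^ j * i.2 ∣ d then sg i else 0) (GG j d) := by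
  have hd0 : d ≠ 0 := by
    rintro rfl
    simp at hd
  have h1 : GG j d = ∑ i ∈ d.primeFactors ×ˢ d.divisors,
      if i.1 ^ j * i.2 ∣ d then sg i else 0 := by
    rw [Finset.sum_product]
    unfold GG
    refine Finset.sum_congr rfl fun q hq => ?_
    have hqp := Nat.prime_of_mem_primeFactors hq
    have hqd := Nat.dvd_of_mem_primeFactors hq
    have hq2 : q ≠ 2 := by
      rintro rfl
      exact (Nat.not_even_iff_odd.2 hd) (even_iff_two_dvd.2 hqd)
    split_ifs with h2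
    · unfold Sq
      rw [Finset.mul_sum, Finset.sum_filter]
      refine Finset.sum_congr rfl fun e he => ?_
      have hed := Nat.dvd_of_mem_divisors he
      unfold sg
      simp only
      by_cases h3 : q ∣ e
      · rw [if_neg (not_not.2 h3)]
        split_ifs with h4 h5
        · exact absurd h3 h5.2.2
        · rfl
        · rfl
      · have h4 : q ^ j * e ∣ d := by
          refine Nat.Coprime.mul_dvd_of_dvd_of_dvd ?_ h2 hed
          exact ((hqp.coprime_iff_not_dvd).2 h3).pow_left j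
        rw [if_pos h3, if_pos h4, if_pos ⟨hqp, hq2, h3⟩]
    · symm
      refine Finset.sum_eq_zero fun e he => ?_
      rw [if_neg]
      intro h3
      exact h2 ((Dvd.intro _ rfl).trans h3)
  rw [h1]
  refine hasSum_sum_of_ne_finset_zero fun i hi => ?_
  rw [Finset.mem_product] at hi
  unfold sg
  split_ifs with h2 h3
  · exfalso
    apply hi
    refine ⟨?_, ?_⟩
    · rw [Nat.mem_primeFactors]
      exact ⟨h3.1, (dvd_pow_self _ hj).trans ((Dvd.intro _ rfl).trans h2), hd0⟩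
    · exact Nat.mem_divisors.2 ⟨(Dvd.intro_left _ rfl).trans h2, hd0⟩
  · rfl
  · rfl

theorem Sq_eq {q m : ℕ} (hq : q.Prime) (hm : Odd m) (h : ¬ q ∣ m) : Sq q (q * m) = gA m := by
  have hm0 : m ≠ 0 := by
    rintro rfl
    simp at hm
  unfold Sq
  rw [← tA_sum]
  have h1 : (q * m).divisors.filter (fun e => ¬ q ∣ e) = m.divisors := by
    ext e
    rw [Finset.mem_filter, Nat.mem_divisors, Nat.mem_divisors]
    constructor
    · rintro ⟨⟨h1, -⟩, h2⟩
      refine ⟨?_, hm0⟩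
      exact (Nat.Coprime.symm ((hq.coprime_iff_not_dvd).2 h2)).dvd_of_dvd_mul_left h1
    · rintro ⟨h1, -⟩
      refine ⟨⟨h1.mul_left q, mul_ne_zero hq.ne_zero hm0⟩, fun h2 => h (h2.trans h1)⟩
  rw [h1]
  refine Finset.sum_congr rfl fun e he => ?_
  unfold tau
  rw [if_pos (hm.of_dvd_nat (Nat.dvd_of_mem_divisors he))]

theorem GG_sub {d : ℕ} (hd : Odd d) : GG 1 d - GG 2 d = gA d * Lam d := by
  have hd0 : d ≠ 0 := by
    rintro rfl
    simp at hd
  unfold GG Lam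
  rw [← Finset.sum_sub_distrib, Finset.mul_sum]
  refine Finset.sum_congr rfl fun q hq => ?_
  have hqp := Nat.prime_of_mem_primeFactors hq
  have hqd := Nat.dvd_of_mem_primeFactors hq
  rw [pow_one, if_pos hqd]
  by_cases h2 : q ^ 2 ∣ d
  · rw [if_pos h2, sub_self]
    have : gA d = 0 := by
      rw [gA_apply, if_neg]
      intro h3
      rw [pow_two] at h2
      exact hqp.one_lt.ne' (Nat.isUnit_iff.1 (h3 q h2))
    rw [this, zero_mul]
  · rw [if_neg h2, sub_zero]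
    obtain ⟨m, rfl⟩ := hqd
    have hqm : ¬ q ∣ m := by
      intro h3
      apply h2
      rw [pow_two]
      exact mul_dvd_mul_left q h3
    have hmo : Odd m := (Nat.odd_mul.1 hd).2
    rw [Sq_eq hqp hmo hqm, gA_mult.2 ((hqp.coprime_iff_not_dvd).2 hqm), gA_prime hqp]
    have h4 : (q : ℝ) ≠ 0 := by exact_mod_cast hqp.ne_zero
    have h5 : (q : ℝ) - 1 ≠ 0 := by
      have : (1 : ℝ) < q := by exact_mod_cast hqp.one_lt
      linarith
    field_simp

/-! ### the sums -/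

theorem logq {q : ℕ} : Real.log q / q * √(1 / q) ≤ 4 * wf q := by
  rcases Nat.eq_zero_or_pos q with rfl | hq
  · simp [wf]
  have hq0 : (0 : ℝ) < q := by exact_mod_cast hq
  have h1 := Real.log_le_rpow_div hq0.le (by norm_num : (0 : ℝ) < 1 / 4)
  have h2 : √(1 / (q : ℝ)) = (q : ℝ) ^ (-(1 / 2) : ℝ) := by
    rw [Real.sqrt_eq_rpow, one_div, Real.inv_rpow hq0.le, Real.rpow_neg hq0.le]
  rw [h2]
  unfold wf
  have h3 : (q : ℝ) ^ (-(5 / 4) : ℝ) = (q : ℝ) ^ (1 / 4 : ℝ) * (q : ℝ) ^ (-1 : ℝ) *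
      (q : ℝ) ^ (-(1 / 2) : ℝ) := by
    rw [← Real.rpow_add hq0, ← Real.rpow_add hq0]
    norm_num
  rw [h3, Real.rpow_neg_one, div_eq_mul_inv]
  have h4 : 0 < (q : ℝ) ^ (-(1 / 2) : ℝ) := Real.rpow_pos_of_pos hq0 _
  have h5 : Real.log q ≤ 4 * (q : ℝ) ^ (1 / 4 : ℝ) := by
    refine h1.trans (le_of_eq ?_)
    ring
  calc Real.log q * (q : ℝ)⁻¹ * (q : ℝ) ^ (-(1 / 2) : ℝ)
      ≤ 4 * (q : ℝ) ^ (1 / 4 : ℝ) * (q : ℝ)⁻¹ * (q : ℝ) ^ (-(1 / 2) : ℝ) := by gcongr
    _ = _ := by ring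

theorem sg_le (q e : ℕ) : |sg (q, e)| ≤ Real.log q / q * |tau e| := by
  have h0 : 0 ≤ Real.log q / q := div_nonneg (Real.log_natCast_nonneg q) (Nat.cast_nonneg q)
  unfold sg
  split_ifs
  · rw [abs_mul, abs_of_nonneg h0]
  · rw [abs_zero]
    positivity

theorem sg_sum : ∃ C : ℝ, 0 < C ∧ ∀ j : ℕ, j ≠ 0 → ∀ h : ℝ, 0 < h →
    Summable (fun i : ℕ × ℕ => |sg i| * min 1 (h / (i.1 ^ j * i.2 : ℕ))) ∧
    ∑' i : ℕ × ℕ, |sg i| * min 1 (h / (i.1 ^ j * i.2 : ℕ)) ≤ C * √h := by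
  obtain ⟨C, hC, hT⟩ := tau_sum
  have hW : 0 ≤ ∑' q, wf q := tsum_nonneg wf_nonneg
  refine ⟨C * (4 * ∑' q, wf q) + 1, by positivity, fun j hj h hh => ?_⟩
  -- the inner sums
  have hin : ∀ q : ℕ, Summable (fun e : ℕ => |sg (q, e)| * min 1 (h / (q ^ j * e : ℕ))) ∧
      ∑' e : ℕ, |sg (q, e)| * min 1 (h / (q ^ j * e : ℕ)) ≤ C * √h * (4 * wf q) := by
    intro q
    rcases Nat.eq_zero_or_pos q with rfl | hq
    · have : ∀ e : ℕ, sg (0, e) = 0 := fun e => by
        unfold sg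
        rw [if_neg]
        rintro ⟨h1, -⟩
        exact Nat.not_prime_zero h1
      simp only [this, abs_zero, zero_mul, tsum_zero]
      exact ⟨summable_zero, by positivity [wf_nonneg 0]⟩
    have hq1 : (1 : ℝ) ≤ q := by exact_mod_cast hq
    have hq0 : (0 : ℝ) < q := by linarith
    have hqj : (0 : ℝ) < (q : ℝ) ^ j := by positivity
    obtain ⟨s1, s2⟩ := hT (h / (q : ℝ) ^ j) (by positivity)
    have h0 : 0 ≤ Real.log q / q := div_nonneg (Real.log_natCast_nonneg q) (Nat.cast_nonneg q)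
    have h1 : ∀ e : ℕ, |sg (q, e)| * min 1 (h / (q ^ j * e : ℕ)) ≤
        Real.log q / q * (|tau e| * min 1 (h / (q : ℝ) ^ j / e)) := by
      intro e
      rw [← mul_assoc]
      have : h / ((q ^ j * e : ℕ) : ℝ) = h / (q : ℝ) ^ j / e := by
        push_cast
        rw [div_div]
      rw [this]
      exact mul_le_mul_of_nonneg_right (sg_le q e) (by positivity)
    have s3 : Summable fun e : ℕ => |sg (q, e)| * min 1 (h / (q ^ j * e : ℕ)) :=
      Summable.of_nonneg_of_le (fun e => by positivity) h1 (s1.mul_left _)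
    refine ⟨s3, ?_⟩
    have s4 := s3.tsum_le_tsum h1 (s1.mul_left _)
    rw [tsum_mul_left] at s4
    refine s4.trans ?_
    have h2 : √(h / (q : ℝ) ^ j) ≤ √h * √(1 / q) := by
      rw [← Real.sqrt_mul hh.le]
      refine Real.sqrt_le_sqrt ?_
      rw [div_eq_mul_one_div]
      refine mul_le_mul_of_nonneg_left ?_ hh.le
      refine one_div_le_one_div_of_le hq0 ?_
      exact le_self_pow₀ hq1 hj
    calc Real.log q / q * ∑' e : ℕ, |tau e| * min 1 (h / (q : ℝ) ^ j / e)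
        ≤ Real.log q / q * (C * (√h * √(1 / q))) := by
          refine mul_le_mul_of_nonneg_left (s2.trans ?_) h0
          exact mul_le_mul_of_nonneg_left h2 hC.le
      _ = C * √h * (Real.log q / q * √(1 / q)) := by ring
      _ ≤ C * √h * (4 * wf q) := mul_le_mul_of_nonneg_left logq (by positivity)
  have hs : Summable (fun i : ℕ × ℕ => |sg i| * min 1 (h / (i.1 ^ j * i.2 : ℕ))) := by
    rw [summable_prod_of_nonneg (fun i => by positivity)]
    refine ⟨fun q => (hin q).1, ?_⟩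
    refine Summable.of_nonneg_of_le (fun q => tsum_nonneg fun e => by positivity)
      (fun q => (hin q).2) ?_
    exact (wf_summable.mul_left 4).mul_left _
  refine ⟨hs, ?_⟩
  rw [hs.tsum_prod]
  have h3 := (hs.prod).tsum_le_tsum (fun q => (hin q).2) ((wf_summable.mul_left 4).mul_left _)
  refine h3.trans ?_
  rw [tsum_mul_left, tsum_mul_left]
  have : 0 ≤ √h := Real.sqrt_nonneg h
  nlinarith

/-! ### the constant -/

/-- the sum over the numbers prime to `q` -/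
def Pq (q : ℕ) : ℝ := ∑' e : ℕ, if q ∣ e then 0 else tau e / e

/-- the terms -/
def fq (q e : ℕ) : ℝ := if q ∣ e then 0 else tau e / e

theorem fq_one {q : ℕ} (hq : q.Prime) : fq q 1 = 1 := by
  unfold fq
  rw [if_neg (fun h => hq.one_lt.ne' (Nat.dvd_one.1 h)), tau_one]
  simp

theorem fq_mul {q : ℕ} (hq : q.Prime) {m n : ℕ} (hmn : Nat.Coprime m n) :
    fq q (m * n) = fq q m * fq q n := by
  unfold fq
  by_cases h3 : q ∣ m
  · rw [if_pos h3, if_pos (h3.mul_right n), zero_mul]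
  · by_cases h4 : q ∣ n
    · rw [if_pos h4, if_pos (h4.mul_left m), mul_zero]
    · rw [if_neg h3, if_neg h4, if_neg (fun h5 => (hq.dvd_mul.1 h5).elim h3 h4), tau_mul hmn]
      push_cast
      rw [div_mul_div_comm]

theorem fq_summable (q : ℕ) : Summable fun e : ℕ => ‖fq q e‖ := by
  refine Summable.of_nonneg_of_le (fun e => norm_nonneg _) (fun e => ?_) tau_div_summable
  unfold fq
  split_ifs
  · rw [norm_zero]
    exact norm_nonneg _
  · exact le_rfl

open Classical in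
theorem Pq_eq {q : ℕ} (hq : q.Prime) (h2 : q ≠ 2) : Pq q * ph q = Po := by
  have h := EulerProduct.eulerProduct_hasProd (f := fq q) (fq_one hq)
    (fun {m n} hmn => fq_mul hq hmn) (fq_summable q) (by unfold fq; simp)
  have h' : HasProd (fun p : Nat.Primes => if p = ⟨q, hq⟩ then ph q else 1) (ph q) :=
    hasProd_ite_eq _ _
  have h3 := h.mul h'
  have h4 : HasProd (fun p : Nat.Primes => if (p : ℕ) = 2 then 1 else ph p)
      ((∑' e : ℕ, fq q e) * ph q) := by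
    refine h3.congr_fun fun p => ?_
    by_cases hpq : p = ⟨q, hq⟩
    · rw [if_pos hpq]
      have hpv : (p : ℕ) = q := by rw [hpq]
      rw [hpv]
      have h6 : ∑' k : ℕ, fq q (q ^ k) = 1 := by
        rw [tsum_eq_single 0]
        · rw [pow_zero, fq_one hq]
        · intro k hk
          unfold fq
          rw [if_pos (dvd_pow_self q hk)]
      rw [if_neg h2, h6, one_mul]
    · rw [if_neg hpq, mul_one]
      refine (factor (F := fq q) p.2 (fun k => ?_)).symm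
      unfold fq
      rw [if_neg]
      intro h5
      have h6 := hq.dvd_of_dvd_pow h5
      apply hpq
      have h7 := (Nat.prime_dvd_prime_iff_eq hq p.2).1 h6
      exact Subtype.ext h7.symm
  have h5 := h4.unique Po_hasProd
  rw [Po_eq] at h5
  exact h5

/-- the constants of the two families -/
def Kc (j : ℕ) : ℝ := ∑' i : ℕ × ℕ, sg i / (i.1 ^ j * i.2 : ℕ)

theorem inner_K (j : ℕ) {q : ℕ} (hq : q.Prime) (h2 : q ≠ 2) :
    ∑' e : ℕ, sg (q, e) / (q ^ j * e : ℕ) = Real.log q / q * (1 / (q : ℝ) ^ j) * Pq q := by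
  unfold Pq
  rw [← tsum_mul_left]
  refine tsum_congr fun e => ?_
  unfold sg
  by_cases h3 : q ∣ e
  · rw [if_neg, if_pos h3]
    · simp
    · rintro ⟨-, -, h4⟩
      exact h4 h3
  · rw [if_pos ⟨hq, h2, h3⟩, if_neg h3]
    push_cast
    rw [mul_assoc, one_div_mul_eq_div, mul_div_assoc, div_div, mul_comm ((q : ℝ) ^ j)]

theorem inner_K0 (j : ℕ) {q : ℕ} (hq : ¬ (q.Prime ∧ q ≠ 2)) :
    ∑' e : ℕ, sg (q, e) / (q ^ j * e : ℕ) = 0 := by
  have : ∀ e, sg (q, e) = 0 := by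
    intro e
    unfold sg
    rw [if_neg]
    rintro ⟨h1, h2, -⟩
    exact hq ⟨h1, h2⟩
  simp [this]

theorem Kc_sub (s1 : Summable fun i : ℕ × ℕ => sg i / (i.1 ^ 1 * i.2 : ℕ))
    (s2 : Summable fun i : ℕ × ℕ => sg i / (i.1 ^ 2 * i.2 : ℕ)) : Kc 1 - Kc 2 = Po * Lo := by
  unfold Kc Lo
  rw [s1.tsum_prod, s2.tsum_prod, ← (s1.prod).tsum_sub s2.prod, ← tsum_mul_left]
  have e1 : (∑' p : Nat.Primes, Po * (if (p : ℕ) = 2 then 0 else
      Real.log ((p : ℕ) : ℝ) / (((p : ℕ) : ℝ) ^ 2 + ((p : ℕ) : ℝ) - 1))) =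
      ∑' q : ℕ, {p : ℕ | p.Prime}.indicator (fun q : ℕ => Po * (if q = 2 then 0 else
      Real.log (q : ℝ) / ((q : ℝ) ^ 2 + (q : ℝ) - 1))) q := by
    rw [← _root_.tsum_subtype]
    rfl
  rw [e1]
  refine tsum_congr fun q => ?_
  by_cases hq : q.Prime ∧ q ≠ 2
  · rw [inner_K 1 hq.1 hq.2, inner_K 2 hq.1 hq.2, Set.indicator_of_mem (show q ∈ {p : ℕ | p.Prime} from hq.1),
      if_neg hq.2, ← Pq_eq hq.1 hq.2]
    have h1 : (2 : ℝ) ≤ q := by exact_mod_cast hq.1.two_le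
    have h2 : (q : ℝ) ^ 2 + q - 1 ≠ 0 := by nlinarith
    have h3 : (q : ℝ) ≠ 0 := by linarith
    have h4 : ph q = (q - 1) * ((q : ℝ) ^ 2 + q - 1) / (q : ℝ) ^ 3 := by
      unfold ph
      field_simp
      ring
    rw [h4]
    generalize (q : ℝ) ^ 2 + q - 1 = D at h2
    field_simp
  · rw [inner_K0 1 hq, inner_K0 2 hq, sub_zero]
    by_cases h1 : q.Prime
    · rw [Set.indicator_of_mem (show q ∈ {p : ℕ | p.Prime} from h1), if_pos, mul_zero]
      by_contra h2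
      exact hq ⟨h1, h2⟩
    · rw [Set.indicator_of_notMem (show q ∉ {p : ℕ | p.Prime} from h1)]

theorem sum_gA2 (s : Finset ℕ) {c : ℕ} (hc : Odd c) :
    ∑ d ∈ s.filter (fun d => d % 8 = c ∧ Squarefree d), (d.totient : ℝ) / d * Lam d =
      ∑ d ∈ s.filter (fun d => d % 8 = c), GG 1 d - ∑ d ∈ s.filter (fun d => d % 8 = c), GG 2 d := by
  rw [← Finset.sum_sub_distrib, ← Finset.filter_filter, Finset.sum_filter]
  refine Finset.sum_congr rfl fun d hd => ?_
  have h1 := (Finset.mem_filter.1 hd).2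
  have h2 : Odd d := by
    rw [Nat.odd_iff] at hc ⊢
    omega
  rw [GG_sub h2, gA_apply]
  split_ifs
  · rfl
  · rw [zero_mul]

theorem fam (j : ℕ) {c Y h : ℕ} (hc : c < 8) (hco : Odd c) (hh1 : 1 ≤ h) (hh : h ≤ Y) (hj : j ≠ 0)
    {C : ℝ} (s1 : Summable (fun i : ℕ × ℕ => |sg i| * min 1 ((h : ℝ) / (i.1 ^ j * i.2 : ℕ))))
    (t1 : ∑' i : ℕ × ℕ, |sg i| * min 1 ((h : ℝ) / (i.1 ^ j * i.2 : ℕ)) ≤ C * √h) :
    (Summable fun i : ℕ × ℕ => sg i / (i.1 ^ j * i.2 : ℕ)) ∧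
    ∑ y ∈ range Y, |∑ d ∈ (Ioc y (y + h)).filter (fun d => d % 8 = c), GG j d -
        (h : ℝ) / 8 * Kc j| ≤ 3 * Y * (C * √h) := by
  have k := lemG sg (fun i => i.1 ^ j * i.2) (fun i hi => sg_odd hi) (GG j) hc hco hh1 hh
    (fun d hd => GG_hasSum hj hd) s1
  refine ⟨k.1, k.2.trans ?_⟩
  exact mul_le_mul_of_nonneg_left t1 (by positivity)

theorem t_WA2 : S_WA2 := by
  obtain ⟨C, hC, h⟩ := sg_sum
  refine ⟨6 * C, by positivity, fun c hc hco Y hh h1 h2 => ?_⟩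
  have hh0 : (0 : ℝ) < hh := by exact_mod_cast h1
  obtain ⟨s1, t1⟩ := h 1 one_ne_zero hh hh0
  obtain ⟨s2, t2⟩ := h 2 two_ne_zero hh hh0
  obtain ⟨u1, k1⟩ := fam 1 hc hco h1 h2 one_ne_zero s1 t1
  obtain ⟨u2, k2⟩ := fam 2 hc hco h1 h2 two_ne_zero s2 t2
  have hK := Kc_sub u1 u2
  have e1 : ∑ y ∈ range Y, |∑ d ∈ (Ioc y (y + hh)).filter (fun d => d % 8 = c ∧ Squarefree d),
      (d.totient : ℝ) / d * Lam d - Po * Lo / 8 * hh| ≤
      ∑ y ∈ range Y, (|∑ d ∈ (Ioc y (y + hh)).filter (fun d => d % 8 = c), GG 1 d -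
        (hh : ℝ) / 8 * Kc 1| + |∑ d ∈ (Ioc y (y + hh)).filter (fun d => d % 8 = c), GG 2 d -
        (hh : ℝ) / 8 * Kc 2|) := by
    refine Finset.sum_le_sum fun y _ => ?_
    rw [sum_gA2 _ hco]
    refine le_trans (le_of_eq ?_) (abs_sub _ _)
    congr 1
    rw [← hK]
    ring
  refine e1.trans ?_
  rw [Finset.sum_add_distrib]
  refine (add_le_add k1 k2).trans ?_
  have hl : 0 ≤ Real.log hh := Real.log_natCast_nonneg hh
  have m3 : 0 ≤ 6 * C * Y * √hh * Real.log hh := by positivity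
  have e2 : 6 * C * Y * √hh * (1 + Real.log hh) =
      3 * Y * (C * √hh) + 3 * Y * (C * √hh) + 6 * C * Y * √hh * Real.log hh := by ring
  rw [e2]
  exact le_add_of_nonneg_right m3

end

end Pool.Agent.Q176.FM
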