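import Pool.Agent.Q289.FM.Stm

/-!
# Job GEN: the generating function of `tt` is algebraic
-/

open Filter Topology

namespace Pool.Agent.Q176.FM

open Pool.Agent.Q289.FM

/-- the cubic `y² (y - 1)` -/
def phi (y : ℂ) : ℂ := y ^ 2 * (y - 1)

lemma exists_Y : ∃ Y : ℂ → ℂ, AnalyticAt ℂ Y 0 ∧ Y 0 = 1 ∧ ∀ᶠ w in 𝓝 (0 : ℂ), phi (Y w) = w := by
  have hphi : AnalyticAt ℂ phi 1 := by
    unfold phi
    fun_prop
  have hd : HasDerivAt phi 1 1 := by
    have h := ((hasDerivAt_id (1 : ℂ)).pow 2).mul ((hasDerivAt_id (1 : ℂ)).sub_const 1)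
    refine h.congr_deriv ?_
    simp
  have hd0 : deriv phi 1 ≠ 0 := by
    rw [hd.deriv]
    exact one_ne_zero
  have h0 : phi 1 = 0 := by simp [phi]
  refine ⟨hphi.hasStrictDerivAt.localInverse _ _ _ hd0, ?_, ?_, ?_⟩
  · have := hphi.analyticAt_localInverse hd0
    rwa [h0] at this
  · have := (HasStrictDerivAt.eventually_left_inverse hphi.hasStrictDerivAt hd0).self_of_nhds
    rwa [h0] at this
  · have := HasStrictDerivAt.eventually_right_inverse hphi.hasStrictDerivAt hd0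
    rwa [h0] at this

lemma ode {Y : ℂ → ℂ} (hY : AnalyticAt ℂ Y 0) (h0 : Y 0 = 1)
    (h : ∀ᶠ w in 𝓝 (0 : ℂ), phi (Y w) = w) (n : ℕ) :
    ∀ᶠ w in 𝓝 (0 : ℂ), (4 * w + 27 * w ^ 2) * (deriv^[n + 2] Y w) +
      ((4 * n + 2) + 27 * (2 * n + 1) * w) * (deriv^[n + 1] Y w) +
      (27 * n ^ 2 - 3) * (deriv^[n] Y w) = -(if n = 0 then 1 else 0) := by
  have han : ∀ k : ℕ, ∀ᶠ w in 𝓝 (0 : ℂ), HasDerivAt (deriv^[k] Y) (deriv^[k + 1] Y w) w := by
    intro k
    filter_upwards [(hY.iterated_deriv k).eventually_analyticAt] with w hw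
    rw [Function.iterate_succ_apply']
    exact hw.differentiableAt.hasDerivAt
  induction n with
  | zero =>
    have h1 : ∀ᶠ w in 𝓝 (0 : ℂ), (3 * Y w ^ 2 - 2 * Y w) * deriv Y w = 1 := by
      filter_upwards [h.eventually_nhds, han 0] with w hw hd
      have hd' : HasDerivAt Y (deriv Y w) w := hd
      have h2 : HasDerivAt (fun w => phi (Y w)) ((3 * Y w ^ 2 - 2 * Y w) * deriv Y w) w := by
        have h := (hd'.pow 2).mul (hd'.sub_const 1)
        refine h.congr_deriv ?_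
        simp
        ring
      have h3 : (fun w => phi (Y w)) =ᶠ[𝓝 w] id := hw
      exact (h2.congr_of_eventuallyEq h3.symm).unique (hasDerivAt_id w)
    have h2 : ∀ᶠ w in 𝓝 (0 : ℂ), (6 * Y w - 2) * deriv Y w ^ 2 +
        (3 * Y w ^ 2 - 2 * Y w) * deriv (deriv Y) w = 0 := by
      filter_upwards [h1.eventually_nhds, han 0, han 1] with w hw hd hd2
      have hd' : HasDerivAt Y (deriv Y w) w := hd
      have hd2' : HasDerivAt (deriv Y) (deriv (deriv Y) w) w := hd2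
      have h2 : HasDerivAt (fun w => (3 * Y w ^ 2 - 2 * Y w) * deriv Y w)
          ((6 * Y w - 2) * deriv Y w ^ 2 + (3 * Y w ^ 2 - 2 * Y w) * deriv (deriv Y) w) w := by
        have h := (((hd'.pow 2).const_mul 3).sub (hd'.const_mul 2)).mul hd2'
        refine h.congr_deriv ?_
        simp
        ring
      have h3 : (fun w => (3 * Y w ^ 2 - 2 * Y w) * deriv Y w) =ᶠ[𝓝 w] fun _ => 1 := hw
      exact (h2.congr_of_eventuallyEq h3.symm).unique (hasDerivAt_const w 1)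
    filter_upwards [h, h1, h2] with w hw hw1 hw2
    have hq : (3 * Y w ^ 2 - 2 * Y w) ≠ 0 := by
      intro hq
      rw [hq] at hw1
      simp at hw1
    simp only [Nat.cast_zero, zero_add, mul_zero, if_true, Function.iterate_zero, id]
    change (4 * w + 27 * w ^ 2) * deriv (deriv Y) w + _ * deriv Y w + _ * Y w = _
    unfold phi at hw
    obtain ⟨y, hy⟩ : ∃ y, y = Y w := ⟨_, rfl⟩
    obtain ⟨y1, hy1⟩ : ∃ y1, y1 = deriv Y w := ⟨_, rfl⟩
    obtain ⟨y2, hy2⟩ : ∃ y2, y2 = deriv (deriv Y) w := ⟨_, rfl⟩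
    rw [← hy] at hw hw1 hw2 hq ⊢
    rw [← hy1] at hw1 hw2 ⊢
    rw [← hy2] at hw2 ⊢
    subst hw
    refine mul_left_cancel₀ hq ?_
    linear_combination (4 * (y ^ 2 * (y - 1)) + 27 * (y ^ 2 * (y - 1)) ^ 2) * hw2 +
      (2 + 27 * (y ^ 2 * (y - 1))) * hw1 - (y - 1) * (3 * y + 1) * (6 * y - 2) *
        ((3 * y ^ 2 - 2 * y) * y1 + 1) * hw1
  | succ n ih =>
    filter_upwards [ih.eventually_nhds, han n, han (n + 1), han (n + 2)] with w hw hd hd1 hd2
    have h2 := (((((hasDerivAt_id w).const_mul 4).add (((hasDerivAt_id w).pow 2).const_mul 27)).mul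
      hd2).add (((hasDerivAt_const w (4 * (n : ℂ) + 2)).add
        ((hasDerivAt_id w).const_mul (27 * (2 * (n : ℂ) + 1)))).mul hd1)).add
          (hd.const_mul (27 * (n : ℂ) ^ 2 - 3))
    have h3 : HasDerivAt (fun w : ℂ => (-(if n = 0 then 1 else 0) : ℂ)) 0 w := hasDerivAt_const w _
    have h4 := (h3.congr_of_eventuallyEq (f₁ := fun w => (4 * w + 27 * w ^ 2) * (deriv^[n + 2] Y w) +
      ((4 * n + 2) + 27 * (2 * n + 1) * w) * (deriv^[n + 1] Y w) +
      (27 * n ^ 2 - 3) * (deriv^[n] Y w)) hw)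
    have h5 : HasDerivAt (fun w => (4 * w + 27 * w ^ 2) * (deriv^[n + 2] Y w) +
      ((4 * n + 2) + 27 * (2 * n + 1) * w) * (deriv^[n + 1] Y w) +
      (27 * n ^ 2 - 3) * (deriv^[n] Y w)) _ w := h2.congr_of_eventuallyEq (by
        refine Filter.Eventually.of_forall fun x => ?_
        simp)
    have h6 := h5.unique h4
    rw [if_neg (Nat.succ_ne_zero n)]
    simp only [Pi.add_apply, Pi.pow_apply, id] at h6
    rw [show n + 1 + 2 = n + 2 + 1 from rfl, show n + 1 + 1 = n + 2 from rfl] at *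
    push_cast at h6 ⊢
    linear_combination h6

lemma coeffs {Y : ℂ → ℂ} (hY : AnalyticAt ℂ Y 0) (h0 : Y 0 = 1)
    (h : ∀ᶠ w in 𝓝 (0 : ℂ), phi (Y w) = w) (k : ℕ) :
    iteratedDeriv (k + 1) Y 0 = (k + 1).factorial * ((-1) ^ k * (tt k : ℂ)) := by
  rw [iteratedDeriv_eq_iterate]
  induction k with
  | zero =>
    have := (ode hY h0 h 0).self_of_nhds
    simp [h0, tt] at this ⊢
    linear_combination this / 2
  | succ k ih =>
    have := (ode hY h0 h (k + 1)).self_of_nhds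
    rw [ih, if_neg (Nat.succ_ne_zero k)] at this
    have h2 : (4 * ((k + 1 : ℕ) : ℂ) + 2) ≠ 0 := by
      have : (0 : ℝ) < 4 * ((k + 1 : ℕ) : ℝ) + 2 := by positivity
      exact_mod_cast this.ne'
    refine mul_left_cancel₀ h2 ?_
    have h3 : (tt (k + 1) : ℂ) = (tt k : ℂ) * (3 * (3 * k + 4) * (3 * k + 2)) /
      (2 * (k + 2) * (2 * k + 3)) := by
      rw [tt]; push_cast; ring
    have h4 : ((k : ℂ) + 2) ≠ 0 := by
      have : (0 : ℝ) < (k : ℝ) + 2 := by positivity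
      exact_mod_cast this.ne'
    have h5 : (2 * (k : ℂ) + 3) ≠ 0 := by
      have : (0 : ℝ) < 2 * (k : ℝ) + 3 := by positivity
      exact_mod_cast this.ne'
    have h6 : ((k + 1 + 1).factorial : ℂ) = (k + 2) * (k + 1).factorial := by
      rw [Nat.factorial_succ]; push_cast; ring
    rw [h3, h6]
    push_cast at this ⊢
    have h7 : (4 * ((k : ℂ) + 1) + 2) * (((k : ℂ) + 2) * ((k + 1).factorial : ℂ) * ((-1) ^ (k + 1) *
        ((tt k : ℂ) * (3 * (3 * k + 4) * (3 * k + 2)) / (2 * (k + 2) * (2 * k + 3))))) =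
        ((k + 1).factorial : ℂ) * (-(-1) ^ k * ((tt k : ℂ) * (3 * (3 * k + 4) * (3 * k + 2)))) := by
      have h8 : 4 * ((k : ℂ) + 1) + 2 = 2 * (2 * k + 3) := by ring
      rw [h8]
      field_simp
      ring
    rw [h7]
    linear_combination this

theorem gen : S_GEN := by
  obtain ⟨Y, hY, h0, h⟩ := exists_Y
  obtain ⟨r, hr, hball⟩ := Metric.eventually_nhds_iff_ball.mp hY.eventually_analyticAt
  have hdiff : DifferentiableOn ℂ Y (Metric.ball 0 r) := fun w hw =>
    (hball w hw).differentiableAt.differentiableWithinAt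
  filter_upwards [h, Metric.ball_mem_nhds (0 : ℂ) hr] with w hw hwr
  have h1 := Complex.hasSum_taylorSeries_on_ball hdiff hwr
  have h2 := (hasSum_nat_add_iff' 1).mpr h1
  have h3 : HasSum (fun k : ℕ => (-1) ^ k * (tt k : ℂ) * w ^ (k + 1)) (Y w - 1) := by
    convert! h2 using 1
    · funext k
      rw [coeffs hY h0 h k]
      have : ((k + 1).factorial : ℂ) ≠ 0 := by exact_mod_cast (k + 1).factorial_ne_zero
      simp only [sub_zero, smul_eq_mul]
      field_simp
    · simp [h0]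
  refine ⟨h3.summable, ?_⟩
  rw [h3.tsum_eq]
  have : 1 + (Y w - 1) = Y w := by ring
  rw [this]
  exact hw

end Pool.Agent.Q176.FM
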