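import Pool.Agent.Q122.FM.Stm

/-!
# Windows: the general lemma for WA1 and WA2
-/

set_option autoImplicit false

namespace Pool.Agent.Q176.FM

open Finset Pool.Agent.Q122.FM

/-- the number of multiples of `L` in a residue class modulo 8 in a window -/
def cnt (c L y h : ℕ) : ℕ := ((Ioc y (y + h)).filter (fun d => d % 8 = c ∧ L ∣ d)).card

theorem cnt_near {c L : ℕ} (hc : c < 8) (hL : Odd L) (y h : ℕ) :
    |(cnt c L y h : ℝ) - h / (8 * L)| ≤ 1 := by
  have hcop : Nat.Coprime 8 L := by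
    have : Nat.Coprime 2 L := (Nat.coprime_two_left).2 hL
    exact this.pow_left 3
  have hL0 : 0 < L := hL.pos
  obtain ⟨v, hv1, hv2⟩ := Nat.chineseRemainder hcop c 0
  have h1 : (Ioc y (y + h)).filter (fun d => d % 8 = c ∧ L ∣ d) =
      (Ioc y (y + h)).filter (fun d => d ≡ v [MOD (8 * L)]) := by
    refine Finset.filter_congr fun d _ => ?_
    rw [← Nat.modEq_and_modEq_iff_modEq_mul hcop]
    constructor
    · rintro ⟨h2, h3⟩
      refine ⟨?_, ?_⟩
      · have h4 : d ≡ c [MOD 8] := by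
          unfold Nat.ModEq
          rw [h2, Nat.mod_eq_of_lt hc]
        exact h4.trans hv1.symm
      · exact ((Nat.modEq_zero_iff_dvd).2 h3).trans hv2.symm
    · rintro ⟨h2, h3⟩
      refine ⟨?_, ?_⟩
      · have h4 : d ≡ c [MOD 8] := h2.trans hv1
        unfold Nat.ModEq at h4
        rwa [Nat.mod_eq_of_lt hc] at h4
      · exact (Nat.modEq_zero_iff_dvd).1 (h3.trans hv2)
  have h2 := Nat.Ioc_filter_modEq_card y (y + h) (r := 8 * L) (by positivity) v
  have h3 : ((cnt c L y h : ℕ) : ℤ) = max (⌊((((y + h : ℕ) : ℚ)) - v) / ((8 * L : ℕ) : ℚ)⌋ -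
      ⌊((y : ℚ) - v) / ((8 * L : ℕ) : ℚ)⌋) 0 := by
    unfold cnt
    rw [h1]
    exact h2
  have hr : (0 : ℚ) < ((8 * L : ℕ) : ℚ) := by positivity
  set A : ℚ := ((((y + h : ℕ) : ℚ)) - v) / ((8 * L : ℕ) : ℚ) with hA
  set B : ℚ := ((y : ℚ) - v) / ((8 * L : ℕ) : ℚ) with hB
  have hAB : A - B = (h : ℚ) / (8 * L) := by
    rw [hA, hB, ← sub_div]
    push_cast
    congr 1
    ring
  have hAB0 : 0 ≤ A - B := by
    rw [hAB]
    positivity
  have hle : 0 ≤ ⌊A⌋ - ⌊B⌋ := sub_nonneg.2 (Int.floor_le_floor (by linarith))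
  rw [max_eq_left hle] at h3
  have h4 : (cnt c L y h : ℚ) = (⌊A⌋ : ℚ) - ⌊B⌋ := by exact_mod_cast h3
  have h5 : |(cnt c L y h : ℚ) - h / (8 * L)| ≤ 1 := by
    rw [← hAB, h4, abs_le]
    have f1 := Int.floor_le A
    have f2 := Int.lt_floor_add_one A
    have f3 := Int.floor_le B
    have f4 := Int.lt_floor_add_one B
    constructor <;> linarith
  have h6 : ((|(cnt c L y h : ℚ) - h / (8 * L)| : ℚ) : ℝ) ≤ ((1 : ℚ) : ℝ) := by exact_mod_cast h5
  push_cast at h6
  exact h6

theorem cnt_sum {c L : ℕ} (hL : 0 < L) (Y h : ℕ) (hh : h ≤ Y) :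
    ∑ y ∈ range Y, (cnt c L y h : ℝ) ≤ 2 * (h * Y) / L := by
  have h1 : ∑ y ∈ range Y, cnt c L y h ≤ h * ((Y + h) / L) := by
    have e1 : ∀ y ∈ range Y, cnt c L y h ≤
        ∑ d ∈ (Ioc 0 (Y + h)).filter (fun d => L ∣ d), if y < d ∧ d ≤ y + h then 1 else 0 := by
      intro y hy
      rw [Finset.mem_range] at hy
      rw [← Finset.sum_filter, Finset.sum_const, smul_eq_mul, mul_one]
      unfold cnt
      refine Finset.card_le_card fun d hd => ?_
      simp only [Finset.mem_filter, Finset.mem_Ioc] at hd ⊢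
      omega
    refine (Finset.sum_le_sum e1).trans ?_
    rw [Finset.sum_comm]
    have e2 : ∀ d ∈ (Ioc 0 (Y + h)).filter (fun d => L ∣ d),
        ∑ y ∈ range Y, (if y < d ∧ d ≤ y + h then 1 else 0) ≤ h := by
      intro d _
      rw [← Finset.sum_filter, Finset.sum_const, smul_eq_mul, mul_one]
      have e3 : (range Y).filter (fun y => y < d ∧ d ≤ y + h) ⊆ Ico (d - h) d := by
        intro y hy
        simp only [Finset.mem_filter, Finset.mem_range, Finset.mem_Ico] at hy ⊢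
        omega
      refine (Finset.card_le_card e3).trans ?_
      rw [Nat.card_Ico]
      omega
    refine (Finset.sum_le_sum e2).trans ?_
    rw [Finset.sum_const, smul_eq_mul, Nat.Ioc_filter_dvd_card_eq_div, mul_comm]
  have h2 : (((Y + h) / L : ℕ) : ℝ) ≤ (((Y + h : ℕ)) : ℝ) / L := Nat.cast_div_le
  have hL' : (0 : ℝ) < L := by exact_mod_cast hL
  have h3 : (∑ y ∈ range Y, (cnt c L y h : ℝ)) ≤ h * (((Y + h) / L : ℕ) : ℝ) := by
    exact_mod_cast h1
  have h4 : ((h : ℕ) : ℝ) ≤ Y := by exact_mod_cast hh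
  refine h3.trans ((mul_le_mul_of_nonneg_left h2 (by positivity)).trans ?_)
  rw [mul_div_assoc']
  refine div_le_div_of_nonneg_right ?_ hL'.le
  push_cast
  nlinarith [Nat.cast_nonneg (α := ℝ) h]

theorem cnt_err {c L : ℕ} (hc : c < 8) (hL : Odd L) {Y h : ℕ} (hh : h ≤ Y) :
    ∑ y ∈ range Y, |(cnt c L y h : ℝ) - h / (8 * L)| ≤ 3 * Y * min 1 ((h : ℝ) / L) := by
  have hL' : (0 : ℝ) < L := by exact_mod_cast hL.pos
  rcases le_total ((h : ℝ) / L) 1 with h1 | h1
  · rw [min_eq_right h1]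
    have e1 : ∀ y ∈ range Y, |(cnt c L y h : ℝ) - h / (8 * L)| ≤
        (cnt c L y h : ℝ) + h / (8 * L) := by
      intro y _
      rw [abs_le]
      have f1 : (0 : ℝ) ≤ cnt c L y h := by positivity
      have f2 : (0 : ℝ) ≤ h / (8 * L) := by positivity
      constructor <;> linarith
    refine (Finset.sum_le_sum e1).trans ?_
    rw [Finset.sum_add_distrib, Finset.sum_const, Finset.card_range, nsmul_eq_mul]
    have e2 := cnt_sum (c := c) hL.pos Y h hh
    have e3 : (0 : ℝ) ≤ h * Y / L := by positivity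
    have e4 : 2 * ((h : ℝ) * Y) / L = 2 * (h * Y / L) := by ring
    have e5 : (Y : ℝ) * (h / (8 * L)) = (1 / 8) * (h * Y / L) := by
      field_simp
    have e6 : 3 * (Y : ℝ) * (h / L) = 3 * (h * Y / L) := by ring
    rw [e4] at e2
    rw [e5, e6]
    linarith
  · rw [min_eq_left h1, mul_one]
    refine (Finset.sum_le_sum fun y _ => cnt_near hc hL y h).trans ?_
    rw [Finset.sum_const, Finset.card_range, nsmul_eq_mul, mul_one]
    linarith [Nat.cast_nonneg (α := ℝ) Y]

/-- sums over windows of a function with divisor expansion -/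
theorem lemG {ι : Type} (τ : ι → ℝ) (L : ι → ℕ) (hL : ∀ i, τ i ≠ 0 → Odd (L i)) (G : ℕ → ℝ)
    {c Y h : ℕ} (hc : c < 8) (hco : Odd c) (hh1 : 1 ≤ h) (hh : h ≤ Y)
    (hG : ∀ d, Odd d → HasSum (fun i => if L i ∣ d then τ i else 0) (G d))
    (hs : Summable fun i => |τ i| * min 1 ((h : ℝ) / L i)) :
    Summable (fun i => τ i / L i) ∧
    ∑ y ∈ range Y, |∑ d ∈ (Ioc y (y + h)).filter (fun d => d % 8 = c), G d -
      (h : ℝ) / 8 * ∑' i, τ i / L i| ≤ 3 * Y * ∑' i, |τ i| * min 1 ((h : ℝ) / L i) := by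
  have hh0 : (1 : ℝ) ≤ h := by exact_mod_cast hh1
  -- summability of the constants
  have hs1 : Summable fun i => τ i / L i := by
    refine Summable.of_norm_bounded hs fun i => ?_
    rw [norm_div, Real.norm_eq_abs, Real.norm_eq_abs, Nat.abs_cast,
      div_eq_mul_inv]
    rcases eq_or_ne (τ i) 0 with h0 | h0
    · rw [h0, abs_zero, zero_mul, zero_mul]
    · have hLi := (hL i h0).pos
      have hLi' : (1 : ℝ) ≤ L i := by exact_mod_cast hLi
      refine mul_le_mul_of_nonneg_left (le_min ?_ ?_) (abs_nonneg _)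
      · exact inv_le_one_of_one_le₀ hLi'
      · rw [div_eq_mul_inv]
        exact le_mul_of_one_le_left (by positivity) hh0
  refine ⟨hs1, ?_⟩
  -- the expansion of the windows
  have hW : ∀ y, HasSum (fun i => τ i * (cnt c (L i) y h : ℝ))
      (∑ d ∈ (Ioc y (y + h)).filter (fun d => d % 8 = c), G d) := by
    intro y
    have h1 : HasSum (fun i => ∑ d ∈ (Ioc y (y + h)).filter (fun d => d % 8 = c),
        if L i ∣ d then τ i else 0) (∑ d ∈ (Ioc y (y + h)).filter (fun d => d % 8 = c), G d) := by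
      refine hasSum_sum fun d hd => hG d ?_
      rw [Finset.mem_filter] at hd
      obtain ⟨k, hk⟩ := hco
      rw [Nat.odd_iff]
      omega
    refine h1.congr_fun ?_ |>.trans_eq' rfl
    · intro i
      rw [← Finset.sum_filter, Finset.sum_const, Finset.filter_filter, nsmul_eq_mul, mul_comm]
      rfl
  have hE : ∀ y, HasSum (fun i => τ i * ((cnt c (L i) y h : ℝ) - h / (8 * L i)))
      (∑ d ∈ (Ioc y (y + h)).filter (fun d => d % 8 = c), G d - (h : ℝ) / 8 * ∑' i, τ i / L i) := by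
    intro y
    have h1 := (hW y).sub (hs1.hasSum.mul_left ((h : ℝ) / 8))
    refine h1.congr_fun ?_
    intro i
    rw [mul_sub]
    congr 1
    rw [mul_div_assoc', div_mul_div_comm]
    ring
  have hpt : ∀ i, ∑ y ∈ range Y, |τ i| * |(cnt c (L i) y h : ℝ) - h / (8 * L i)| ≤
      3 * Y * (|τ i| * min 1 ((h : ℝ) / L i)) := by
    intro i
    rw [← Finset.mul_sum]
    rcases eq_or_ne (τ i) 0 with h0 | h0
    · rw [h0, abs_zero, zero_mul, zero_mul, mul_zero]
    · have h1 := mul_le_mul_of_nonneg_left (cnt_err hc (hL i h0) hh) (abs_nonneg (τ i))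
      linarith
  have hsy : ∀ y ∈ range Y, Summable fun i => |τ i| * |(cnt c (L i) y h : ℝ) - h / (8 * L i)| := by
    intro y hy
    refine Summable.of_nonneg_of_le (fun i => by positivity) (fun i => ?_)
      (hs.mul_left (3 * (Y : ℝ)))
    refine le_trans ?_ (hpt i)
    exact Finset.single_le_sum (f := fun y => |τ i| * |(cnt c (L i) y h : ℝ) - h / (8 * L i)|)
      (fun y _ => by positivity) hy
  calc ∑ y ∈ range Y, |∑ d ∈ (Ioc y (y + h)).filter (fun d => d % 8 = c), G d -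
        (h : ℝ) / 8 * ∑' i, τ i / L i| ≤
      ∑ y ∈ range Y, ∑' i, |τ i| * |(cnt c (L i) y h : ℝ) - h / (8 * L i)| := by
        refine Finset.sum_le_sum fun y hy => ?_
        rw [← (hE y).tsum_eq, ← Real.norm_eq_abs]
        refine (norm_tsum_le_tsum_norm ?_).trans (le_of_eq ?_)
        · refine (hsy y hy).congr fun i => ?_
          rw [norm_mul, Real.norm_eq_abs, Real.norm_eq_abs]
        · refine tsum_congr fun i => ?_
          rw [norm_mul, Real.norm_eq_abs, Real.norm_eq_abs]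
    _ = ∑' i, ∑ y ∈ range Y, |τ i| * |(cnt c (L i) y h : ℝ) - h / (8 * L i)| :=
        (Summable.tsum_finsetSum hsy).symm
    _ ≤ ∑' i, 3 * Y * (|τ i| * min 1 ((h : ℝ) / L i)) :=
        Summable.tsum_le_tsum hpt (summable_sum hsy) (hs.mul_left _)
    _ = _ := tsum_mul_left

end Pool.Agent.Q176.FM
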