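import Pool.Agent.Q176.FM.WAg

/-!
# The divisor expansion of `μ²(d) φ(d)/d`
-/

set_option autoImplicit false

namespace Pool.Agent.Q176.FM

open Finset Pool.Agent.Q122.FM ArithmeticFunction

noncomputable section

/-- `μ²(n) φ(n)/n` -/
def gA : ArithmeticFunction ℝ := ⟨fun n => if Squarefree n then (n.totient : ℝ) / n else 0, by simp⟩

theorem gA_apply (n : ℕ) : gA n = if Squarefree n then (n.totient : ℝ) / n else 0 := rfl

theorem gA_mult : IsMultiplicative gA := by
  refine ⟨?_, ?_⟩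
  · rw [gA_apply, if_pos squarefree_one]
    simp
  · intro m n hmn
    rw [gA_apply, gA_apply, gA_apply]
    by_cases h1 : Squarefree m
    · by_cases h2 : Squarefree n
      · have h3 : Squarefree (m * n) := (Nat.squarefree_mul_iff).2 ⟨hmn, h1, h2⟩
        rw [if_pos h1, if_pos h2, if_pos h3, Nat.totient_mul hmn]
        push_cast
        rw [div_mul_div_comm]
      · have h3 : ¬ Squarefree (m * n) := fun h => h2 ((Nat.squarefree_mul_iff).1 h).2.2
        rw [if_neg h2, if_neg h3, mul_zero]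
    · have h3 : ¬ Squarefree (m * n) := fun h => h1 ((Nat.squarefree_mul_iff).1 h).2.1
      rw [if_neg h1, if_neg h3, zero_mul]

theorem gA_prime {p : ℕ} (hp : p.Prime) : gA p = 1 - 1 / p := by
  have hp0 : (p : ℝ) ≠ 0 := by exact_mod_cast hp.ne_zero
  rw [gA_apply, if_pos hp.squarefree, Nat.totient_prime hp, Nat.cast_sub hp.one_lt.le]
  field_simp
  simp

theorem gA_pow {p k : ℕ} (hp : p.Prime) : gA (p ^ (k + 2)) = 0 := by
  rw [gA_apply, if_neg]
  intro h
  have h1 := (Nat.squarefree_pow_iff hp.ne_one (by omega : k + 2 ≠ 0)).1 h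
  omega

/-- its Möbius inverse -/
def tA : ArithmeticFunction ℝ := ((moebius : ArithmeticFunction ℤ) : ArithmeticFunction ℝ) * gA

theorem tA_mult : IsMultiplicative tA := isMultiplicative_moebius.intCast.mul gA_mult

theorem tA_sum (d : ℕ) : ∑ e ∈ d.divisors, tA e = gA d := by
  rw [← coe_zeta_mul_apply, tA, ← mul_assoc, coe_zeta_mul_coe_moebius, one_mul]

theorem tA_pow {p : ℕ} (hp : p.Prime) (k : ℕ) : tA (p ^ (k + 1)) = gA (p ^ (k + 1)) - gA (p ^ k) := by
  rw [← tA_sum, ← tA_sum, Nat.sum_divisors_prime_pow hp, Nat.sum_divisors_prime_pow hp,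
    Finset.sum_range_succ _ (k + 1)]
  ring

theorem tA_one : tA 1 = 1 := tA_mult.1

theorem tA_prime {p : ℕ} (hp : p.Prime) : tA p = -(1 / p) := by
  have h := tA_pow hp 0
  simp only [zero_add, pow_one, pow_zero] at h
  rw [h, gA_prime hp, gA_mult.1]
  ring

theorem tA_sq {p : ℕ} (hp : p.Prime) : tA (p ^ 2) = -(1 - 1 / p) := by
  have h := tA_pow hp 1
  simp only [pow_one] at h
  have h2 : gA (p ^ 2) = 0 := gA_pow (k := 0) hp
  rw [show (1 + 1 : ℕ) = 2 from rfl] at h
  rw [h, h2, gA_prime hp]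
  ring

theorem tA_cube {p k : ℕ} (hp : p.Prime) : tA (p ^ (k + 3)) = 0 := by
  have h := tA_pow hp (k + 2)
  have h1 : gA (p ^ (k + 3)) = 0 := gA_pow (k := k + 1) hp
  have h2 : gA (p ^ (k + 2)) = 0 := gA_pow (k := k) hp
  rw [show k + 2 + 1 = k + 3 from rfl] at h
  rw [h, h1, h2, sub_zero]

theorem inv_prime {p : ℕ} (hp : p.Prime) : 0 < 1 / (p : ℝ) ∧ 1 / (p : ℝ) ≤ 1 / 2 := by
  have h1 : (2 : ℝ) ≤ p := by exact_mod_cast hp.two_le
  exact ⟨by positivity, one_div_le_one_div_of_le (by norm_num) h1⟩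

/-- the size of the Möbius inverse -/
theorem tA_bound (e : ℕ) : 1 ≤ e → ∃ f k : ℕ, 1 ≤ f ∧ 1 ≤ k ∧ e = f * k ^ 2 ∧ |tA e| ≤ 1 / f := by
  induction e using Nat.recOnPosPrimePosCoprime with
  | prime_pow p n hp hn =>
    intro _
    obtain ⟨i1, i2⟩ := inv_prime hp
    rcases n with _ | _ | _ | n
    · omega
    · refine ⟨p, 1, hp.one_lt.le, le_rfl, by ring, ?_⟩
      rw [zero_add, pow_one, tA_prime hp, abs_neg, abs_of_pos i1]
    · refine ⟨1, p, le_rfl, hp.one_lt.le, by ring, ?_⟩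
      rw [show 0 + 1 + 1 = 2 from rfl, tA_sq hp, abs_neg, abs_of_nonneg (by linarith)]
      push_cast
      linarith
    · refine ⟨p ^ (n + 3), 1, Nat.one_le_pow _ _ hp.pos, le_rfl, by ring, ?_⟩
      rw [show n + 1 + 1 + 1 = n + 3 from rfl, tA_cube hp, abs_zero]
      positivity
  | zero => intro h; omega
  | one =>
    intro _
    exact ⟨1, 1, le_rfl, le_rfl, by norm_num, by rw [tA_one]; norm_num⟩
  | coprime a b ha hb hab iha ihb =>
    intro _
    obtain ⟨f1, k1, h1, h2, h3, h4⟩ := iha ha.le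
    obtain ⟨f2, k2, g1, g2, g3, g4⟩ := ihb hb.le
    refine ⟨f1 * f2, k1 * k2, Nat.one_le_iff_ne_zero.2 (by positivity),
      Nat.one_le_iff_ne_zero.2 (by positivity), ?_, ?_⟩
    · conv_lhs => rw [h3, g3]
      ring
    · rw [tA_mult.2 hab, abs_mul]
      refine (mul_le_mul h4 g4 (abs_nonneg _) (by positivity)).trans (le_of_eq ?_)
      push_cast
      rw [one_div_mul_one_div]

/-- the inverse restricted to the odd numbers -/
def tau (e : ℕ) : ℝ := if Odd e then tA e else 0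

theorem tau_bound (e : ℕ) : ∃ f k : ℕ, e = f * k ^ 2 ∧ (1 ≤ e → 1 ≤ f ∧ 1 ≤ k) ∧
    |tau e| ≤ 1 / f := by
  rcases Nat.eq_zero_or_pos e with rfl | h
  · exact ⟨0, 0, by norm_num, by omega, by simp [tau]⟩
  · obtain ⟨f, k, h1, h2, h3, h4⟩ := tA_bound e h
    refine ⟨f, k, h3, fun _ => ⟨h1, h2⟩, ?_⟩
    unfold tau
    split_ifs
    · exact h4
    · rw [abs_zero]
      positivity

/-- the function of `k` -/
def mk (r : ℝ) (k : ℕ) : ℝ := min (r / √k) ((r / √k) ^ 3)

theorem mk_nonneg {r : ℝ} (hr : 0 < r) (k : ℕ) : 0 ≤ mk r k :=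
  le_min (by positivity) (by positivity)

theorem mk_step {r : ℝ} (hr : 0 < r) (n : ℕ) : mk r (n + 1) ≤
    8 * r ^ 2 * (√((n + 1 : ℕ) : ℝ) / (√((n + 1 : ℕ) : ℝ) + r) - √(n : ℝ) / (√(n : ℝ) + r)) := by
  unfold mk
  set a := √((n + 1 : ℕ) : ℝ) with ha
  set b := √(n : ℝ) with hb
  have ha0 : 0 < a := Real.sqrt_pos.2 (by positivity)
  have hb0 : 0 ≤ b := Real.sqrt_nonneg _
  have hab : b ≤ a := Real.sqrt_le_sqrt (by push_cast; linarith)
  have h1 : a ^ 2 - b ^ 2 = 1 := by
    rw [ha, hb, Real.sq_sqrt (by positivity), Real.sq_sqrt (by positivity)]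
    push_cast
    ring
  have h2 : 1 / (2 * a) ≤ a - b := by
    rw [div_le_iff₀ (by positivity)]
    nlinarith
  have h3 : a / (a + r) - b / (b + r) = r * (a - b) / ((a + r) * (b + r)) := by
    field_simp
    ring
  have h4 : r * (1 / (2 * a)) / ((a + r) * (a + r)) ≤ r * (a - b) / ((a + r) * (b + r)) := by
    apply div_le_div₀
    · exact mul_nonneg hr.le (by linarith)
    · exact mul_le_mul_of_nonneg_left h2 hr.le
    · positivity
    · exact mul_le_mul_of_nonneg_left (by linarith) (by positivity)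
  rw [h3]
  refine le_trans ?_ (mul_le_mul_of_nonneg_left h4 (by positivity))
  set v := r / a with hv
  have hv0 : 0 < v := by positivity
  have h5 : 8 * r ^ 2 * (r * (1 / (2 * a)) / ((a + r) * (a + r))) = 4 * v ^ 3 / (1 + v) ^ 2 := by
    have : r = v * a := by
      rw [hv]
      field_simp
    rw [this]
    field_simp
    ring
  rw [h5]
  rcases le_total v 1 with h | h
  · refine (min_le_right _ _).trans ?_
    rw [le_div_iff₀ (by positivity)]
    have : (1 + v) ^ 2 ≤ 4 := by nlinarith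
    have := mul_le_mul_of_nonneg_left this (by positivity : 0 ≤ v ^ 3)
    linarith
  · refine (min_le_left _ _).trans ?_
    rw [le_div_iff₀ (by positivity)]
    have : (1 + v) ^ 2 ≤ 4 * v ^ 2 := by nlinarith
    have := mul_le_mul_of_nonneg_left this hv0.le
    nlinarith

theorem mk_sum {r : ℝ} (hr : 0 < r) (n : ℕ) : ∑ k ∈ range (n + 1), mk r k ≤
    8 * r ^ 2 * (√(n : ℝ) / (√(n : ℝ) + r)) := by
  induction n with
  | zero => simp [mk]
  | succ n ih =>
    rw [Finset.sum_range_succ]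
    have := mk_step hr n
    linarith

theorem mk_summable {r : ℝ} (hr : 0 < r) : Summable (mk r) ∧ ∑' k, mk r k ≤ 8 * r ^ 2 := by
  have h1 : ∀ n, ∑ k ∈ range n, mk r k ≤ 8 * r ^ 2 := by
    intro n
    have h2 : ∑ k ∈ range n, mk r k ≤ ∑ k ∈ range (n + 1), mk r k := by
      rw [Finset.sum_range_succ]
      linarith [mk_nonneg hr n]
    refine h2.trans ((mk_sum hr n).trans ?_)
    have h3 : √(n : ℝ) / (√(n : ℝ) + r) ≤ 1 := by
      rw [div_le_one (by positivity)]
      linarith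
    exact mul_le_of_le_one_right (by positivity) h3
  exact ⟨summable_of_sum_range_le (fun k => mk_nonneg hr k) h1,
    Real.tsum_le_of_sum_range_le (fun k => mk_nonneg hr k) h1⟩

/-- the function of `f` -/
def wf (f : ℕ) : ℝ := (f : ℝ) ^ (-(5 / 4) : ℝ)

theorem wf_summable : Summable wf := by
  unfold wf
  exact Real.summable_nat_rpow.2 (by norm_num)

theorem wf_nonneg (f : ℕ) : 0 ≤ wf f := Real.rpow_nonneg (Nat.cast_nonneg _) _

theorem term_le {x : ℝ} (hx : 0 < x) (f k : ℕ) :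
    1 / (f : ℝ) * min 1 (x / (f * (k : ℝ) ^ 2)) ≤ wf f * mk (√√x) k := by
  have hr : 0 < √√x := Real.sqrt_pos.2 (Real.sqrt_pos.2 hx)
  rcases Nat.eq_zero_or_pos f with rfl | hf
  · simp only [CharP.cast_eq_zero, div_zero, zero_mul]
    exact mul_nonneg (wf_nonneg _) (mk_nonneg hr _)
  rcases Nat.eq_zero_or_pos k with rfl | hk
  · simp only [CharP.cast_eq_zero, ne_eq, OfNat.ofNat_ne_zero, not_false_eq_true, zero_pow,
      mul_zero, div_zero]
    rw [min_eq_right zero_le_one, mul_zero]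
    exact mul_nonneg (wf_nonneg _) (mk_nonneg hr _)
  have hf' : (0 : ℝ) < f := by exact_mod_cast hf
  have hf1 : (1 : ℝ) ≤ f := by exact_mod_cast hf
  have hk' : (0 : ℝ) < k := by exact_mod_cast hk
  set r := √√x with hrdef
  set v := r / √(k : ℝ) with hv
  have hv0 : 0 < v := by positivity
  set a : ℝ := (f : ℝ) ^ (1 / 4 : ℝ) with ha
  have ha0 : 0 < a := Real.rpow_pos_of_pos hf' _
  have ha1 : 1 ≤ a := Real.one_le_rpow hf1 (by norm_num)
  have ha4 : a ^ 4 = f := by
    rw [ha, ← Real.rpow_natCast, ← Real.rpow_mul hf'.le]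
    norm_num
  have hw : wf f = 1 / (f * a) := by
    unfold wf
    rw [show (-(5 / 4) : ℝ) = -(1 + 1 / 4) by norm_num, Real.rpow_neg hf'.le,
      Real.rpow_add hf', Real.rpow_one, ← ha]
    exact (one_div _).symm
  have hr4 : r ^ 4 = x := by
    have : r ^ 4 = (r ^ 2) ^ 2 := by ring
    rw [this, hrdef, Real.sq_sqrt (Real.sqrt_nonneg _), Real.sq_sqrt hx.le]
  have hv4 : v ^ 4 = x / (k : ℝ) ^ 2 := by
    rw [hv, div_pow, hr4]
    congr 1
    have : √(k : ℝ) ^ 4 = (√(k : ℝ) ^ 2) ^ 2 := by ring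
    rw [this, Real.sq_sqrt hk'.le]
  set z := v / a with hz
  have hz0 : 0 < z := by positivity
  have hu : x / (f * (k : ℝ) ^ 2) = z ^ 4 := by
    rw [hz, div_pow, hv4, ha4]
    field_simp
  rw [hu]
  unfold mk
  rw [← hv, hw]
  have m1 : min 1 (z ^ 4) ≤ z := by
    rcases le_total z 1 with h | h
    · refine (min_le_right _ _).trans ?_
      calc z ^ 4 = z * z ^ 3 := by ring
        _ ≤ z * 1 := mul_le_mul_of_nonneg_left (pow_le_one₀ hz0.le h) hz0.le
        _ = z := mul_one z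
    · exact (min_le_left _ _).trans h
  have m3 : min 1 (z ^ 4) ≤ z ^ 3 := by
    rcases le_total z 1 with h | h
    · refine (min_le_right _ _).trans ?_
      calc z ^ 4 = z ^ 3 * z := by ring
        _ ≤ z ^ 3 * 1 := mul_le_mul_of_nonneg_left h (by positivity)
        _ = z ^ 3 := mul_one _
    · exact (min_le_left _ _).trans (one_le_pow₀ h)
  have hfa : 0 < 1 / ((f : ℝ) * a) := by positivity
  rw [mul_min_of_nonneg _ _ hfa.le]
  refine le_min ?_ ?_
  · calc 1 / (f : ℝ) * min 1 (z ^ 4) ≤ 1 / (f : ℝ) * z :=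
          mul_le_mul_of_nonneg_left m1 (by positivity)
      _ = 1 / (f * a) * v := by
          rw [hz]
          field_simp
  · calc 1 / (f : ℝ) * min 1 (z ^ 4) ≤ 1 / (f : ℝ) * z ^ 3 :=
          mul_le_mul_of_nonneg_left m3 (by positivity)
      _ = 1 / (f * a) * v ^ 3 * (1 / a ^ 2) := by
          rw [hz]
          field_simp
      _ ≤ 1 / (f * a) * v ^ 3 * 1 := by
          refine mul_le_mul_of_nonneg_left ?_ (by positivity)
          rw [div_le_one (by positivity)]
          exact one_le_pow₀ ha1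
      _ = _ := mul_one _

/-- the main bound for the weights -/
theorem tau_sum : ∃ C : ℝ, 0 < C ∧ ∀ x : ℝ, 0 < x →
    Summable (fun e : ℕ => |tau e| * min 1 (x / e)) ∧
    ∑' e : ℕ, |tau e| * min 1 (x / e) ≤ C * √x := by
  choose F K h1 h2 h3 using tau_bound
  refine ⟨8 * (∑' f, wf f) + 1, by
    have : 0 ≤ ∑' f, wf f := tsum_nonneg wf_nonneg
    linarith, fun x hx => ?_⟩
  have hr : 0 < √√x := Real.sqrt_pos.2 (Real.sqrt_pos.2 hx)
  obtain ⟨s1, s2⟩ := mk_summable hr
  set B : ℕ × ℕ → ℝ := fun p => wf p.1 * mk (√√x) p.2 with hB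
  have hBs : Summable B := wf_summable.mul_of_nonneg s1 wf_nonneg (mk_nonneg hr)
  have hB0 : ∀ p, 0 ≤ B p := fun p => mul_nonneg (wf_nonneg _) (mk_nonneg hr _)
  set j : ℕ → ℕ × ℕ := fun e => (F e, K e) with hj
  have hjinj : Function.Injective j := by
    intro a b hab
    simp only [hj, Prod.mk.injEq] at hab
    rw [h1 a, h1 b, hab.1, hab.2]
  have hle : ∀ e : ℕ, |tau e| * min 1 (x / e) ≤ B (j e) := by
    intro e
    have hm : 0 ≤ min 1 (x / (e : ℝ)) := le_min zero_le_one (by positivity)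
    refine (mul_le_mul_of_nonneg_right (h3 e) hm).trans ?_
    have h4 : ((e : ℕ) : ℝ) = (F e : ℝ) * (K e : ℝ) ^ 2 := by exact_mod_cast h1 e
    rw [h4]
    exact term_le hx _ _
  have hn : ∀ e : ℕ, 0 ≤ |tau e| * min 1 (x / e) := fun e =>
    mul_nonneg (abs_nonneg _) (le_min zero_le_one (by positivity))
  have hBj : Summable (fun e => B (j e)) := hBs.comp_injective hjinj
  refine ⟨Summable.of_nonneg_of_le hn hle hBj, ?_⟩
  calc ∑' e : ℕ, |tau e| * min 1 (x / e) ≤ ∑' e, B (j e) :=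
        Summable.tsum_le_tsum hle (Summable.of_nonneg_of_le hn hle hBj) hBj
    _ ≤ ∑' p, B p := tsum_comp_le_tsum_of_inj hBs hB0 hjinj
    _ = (∑' f, wf f) * ∑' k, mk (√√x) k := by
        rw [wf_summable.tsum_mul_tsum s1 hBs]
    _ ≤ (∑' f, wf f) * (8 * √√x ^ 2) :=
        mul_le_mul_of_nonneg_left s2 (tsum_nonneg wf_nonneg)
    _ = 8 * (∑' f, wf f) * √x := by
        rw [Real.sq_sqrt (Real.sqrt_nonneg _)]
        ring
    _ ≤ _ := by
        have := Real.sqrt_nonneg x
        nlinarith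

end

end Pool.Agent.Q176.FM
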